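import Pool.Agent.Helper38.D.Form

/-!
Dual vectors for the spaces on the axes.
-/

namespace Helper35.BallT

open Helper38.BallD

/-- Dual vectors. -/
lemma exists_dual {N : ℕ} {ι : Type*} [Fintype ι] (w : ι → Fin (N + 1) → ℂ)
    (hw : LinearIndependent ℂ w) :
    ∃ v : ι → Fin (N + 1) → ℂ, ∀ b : ι → ℂ, (∀ k, form (∑ j, b j • v j) (w k) = 0) → b = 0 := by
  classical
  set f : (Fin (N + 1) → ℂ) →ₗ[ℂ] (ι → ℂ) :=
    { toFun := fun u k => form u (w k)
      map_add' := fun u u' => by
        funext k
        exact form_add_left _ _ _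
      map_smul' := fun a u => by
        funext k
        exact form_smul_left _ _ _ } with hf
  have htop : LinearMap.range f = ⊤ := by
    by_contra hne
    obtain ⟨g, hg0, hg⟩ := Submodule.exists_le_ker_of_lt_top _ (lt_top_iff_ne_top.2 hne)
    apply hg0
    have h1 : ∀ v : ι → ℂ, g v = ∑ j, v j * g (Pi.single j 1) := by
      intro v
      conv_lhs => rw [← Finset.univ_sum_single v]
      rw [map_sum]
      refine Finset.sum_congr rfl fun j _ => ?_
      have : (Pi.single j (v j) : ι → ℂ) = v j • Pi.single j 1 := by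
        rw [← Pi.single_smul, smul_eq_mul, mul_one]
      rw [this, map_smul, smul_eq_mul]
    have h2 : ∑ j, starRingEnd ℂ (g (Pi.single j 1)) • w j = 0 := by
      funext c
      have h3 := hg (LinearMap.mem_range_self f (Pi.single c 1))
      rw [LinearMap.mem_ker, h1] at h3
      have h4 : ∀ j, f (Pi.single c 1) j = sg N c * starRingEnd ℂ (w j c) := by
        intro j
        change form (Pi.single c 1) (w j) = _
        unfold form
        rw [Finset.sum_eq_single c]
        · rw [Pi.single_eq_same, mul_one]
        · intro k _ hk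
          rw [Pi.single_eq_of_ne hk, mul_zero, zero_mul]
        · simp
      simp only [h4] at h3
      have h5 : sg N c * ∑ j, starRingEnd ℂ (w j c) * g (Pi.single j 1) = 0 := by
        rw [← h3, Finset.mul_sum]
        exact Finset.sum_congr rfl fun j _ => by ring
      have h6 : sg N c ≠ 0 := by
        refine Fin.cases ?_ (fun j => ?_) c
        · rw [show sg N 0 = -1 from rfl]
          norm_num
        · rw [show sg N j.succ = 1 from rfl]
          norm_num
      have h7 := congrArg (starRingEnd ℂ) ((mul_eq_zero.1 h5).resolve_left h6)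
      rw [map_sum, map_zero] at h7
      rw [Finset.sum_apply, Pi.zero_apply, ← h7]
      refine Finset.sum_congr rfl fun j _ => ?_
      rw [map_mul, Complex.conj_conj, Pi.smul_apply, smul_eq_mul, mul_comm]
    have h3 := Fintype.linearIndependent_iff.1 hw _ h2
    refine LinearMap.ext fun v => ?_
    rw [h1, LinearMap.zero_apply]
    refine Finset.sum_eq_zero fun j _ => ?_
    rw [(map_eq_zero _).1 (h3 j), mul_zero]
  have hsurj : ∀ j, ∃ u, f u = Pi.single j 1 := fun j =>
    LinearMap.range_eq_top.1 htop _
  choose v hv using hsurj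
  refine ⟨v, fun b hb => ?_⟩
  have h1 : f (∑ j, b j • v j) = 0 := by
    funext k
    exact hb k
  rw [map_sum] at h1
  simp only [map_smul, hv] at h1
  funext k
  have h2 := congrFun h1 k
  rw [Finset.sum_apply] at h2
  simpa [Pi.single_apply] using h2

theorem count_dual {N m a : ℕ} {e : Fin (N + 1) → ℂ} (he : e ≠ 0) (h : form e e = 0)
    (S : Fin m → Submodule ℂ (Fin (N + 1) → ℂ))
    (hSe : ∀ i, ∀ u ∈ S i, form u e = 0)
    (horth : ∀ i j, i ≠ j → ∀ u ∈ S i, ∀ v ∈ S j, form u v = 0)
    (hdim : ∀ i, a + 1 ≤ Module.finrank ℂ (S i)) :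
    ∃ v : Fin (1 + m * a) → Fin (N + 1) → ℂ, ∀ b : Fin (1 + m * a) → ℂ,
      form (∑ j, b j • v j) e = 0 →
      (∀ i, ∀ w ∈ S i, form (∑ j, b j • v j) w = 0) → b = 0 := by
  classical
  have h0 := null_zero_ne he h
  set V : Fin m → Submodule ℂ (EuclideanSpace ℂ (Fin N)) := fun i => (S i).map (proj e) with hV
  have hfam : OrthogonalFamily ℂ (fun i => V i) fun i => (V i).subtypeₗᵢ := by
    intro i j hij v w
    obtain ⟨_, v, hv, rfl⟩ := v
    obtain ⟨_, w, hw, rfl⟩ := w
    change inner ℂ (proj e v) (proj e w) = 0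
    rw [proj_inner he h (hSe j w hw) (hSe i v hv)]
    exact horth j i (fun h => hij (by rw [h])) w hw v hv
  have hdimV : ∀ i, a ≤ Module.finrank ℂ (V i) := by
    intro i
    have h1 := finrank_proj he h0 (S i)
    have h2 := hdim i
    change a ≤ Module.finrank ℂ ((S i).map (proj e))
    omega
  have hon := hfam.orthonormal_sigma_orthonormal (fun i => (stdOrthonormalBasis ℂ (V i)).orthonormal)
  set idx : Fin m × Fin a → Σ i, Fin (Module.finrank ℂ (V i)) := fun p =>
    ⟨p.1, Fin.castLE (hdimV p.1) p.2⟩ with hidx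
  have hidxinj : Function.Injective idx := by
    rintro ⟨i, x⟩ ⟨j, y⟩ hxy
    simp only [hidx, Sigma.mk.injEq] at hxy
    obtain ⟨rfl, h2⟩ := hxy
    rw [heq_iff_eq] at h2
    have := Fin.castLE_injective _ h2
    rw [this]
  have hli := (hon.comp idx hidxinj).linearIndependent
  have hlift : ∀ p : Fin m × Fin a, ∃ u ∈ S p.1, proj e u =
      ((stdOrthonormalBasis ℂ (V p.1)) (Fin.castLE (hdimV p.1) p.2) : EuclideanSpace ℂ (Fin N)) := by
    intro p
    exact ((stdOrthonormalBasis ℂ (V p.1)) (Fin.castLE (hdimV p.1) p.2)).2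
  choose u huS hu using hlift
  have hliw : LinearIndependent ℂ (fun o : Option (Fin m × Fin a) => o.elim e u) := by
    rw [Fintype.linearIndependent_iff]
    intro b hb
    rw [Fintype.sum_option] at hb
    simp only [Option.elim_none, Option.elim_some] at hb
    have h1 := congrArg (proj e) hb
    rw [map_add, map_smul, proj_self h0, smul_zero, zero_add, map_sum, map_zero] at h1
    simp only [map_smul, hu] at h1
    have h2 := Fintype.linearIndependent_iff.1 hli (fun p => b (some p)) h1
    have h3 : b none = 0 := by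
      rw [Finset.sum_eq_zero fun p _ => by rw [h2 p, zero_smul], add_zero] at hb
      exact (smul_eq_zero.1 hb).resolve_right he
    intro o
    rcases o with _ | p
    · exact h3
    · exact h2 p
  obtain ⟨v, hv⟩ := exists_dual _ hliw
  have hcard : Fintype.card (Option (Fin m × Fin a)) = 1 + m * a := by
    rw [Fintype.card_option, Fintype.card_prod, Fintype.card_fin, Fintype.card_fin, add_comm]
  set E := Fintype.equivFinOfCardEq hcard with hE
  refine ⟨fun j => v (E.symm j), fun b hb1 hb2 => ?_⟩
  have hsum : ∑ j, b j • v (E.symm j) = ∑ o, b (E o) • v o := by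
    rw [← Equiv.sum_comp E]
    simp
  rw [hsum] at hb1 hb2
  have h1 := hv (fun o => b (E o)) (by
    intro o
    rcases o with _ | p
    · exact hb1
    · exact hb2 p.1 _ (huS p))
  funext j
  have h2 := congrFun h1 (E.symm j)
  simpa using h2

end Helper35.BallT
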