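import Pool.Agent.Helper35.BallT.Frm
import Pool.Agent.Helper35.BallT.Dual
import Pool.Agent.Helper62.DA.Growth

/-!
The degree bounds.
-/

namespace Helper35.BallT

open MvPolynomial Helper38.BallD Helper35.BallK

/-- The exponent sets of a family of polynomials. -/
theorem main_data {M N : ℕ} {P : Fin (N + 1) → MvPolynomial (Fin (M + 2)) ℂ} {d : ℕ}
    (hP : ∀ c, (P c).totalDegree ≤ d) (htop : ∃ c, (P c).totalDegree = d ∧ P c ≠ 0)
    (hcop : ∀ g, (∀ c, g ∣ P c) → g.totalDegree = 0)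
    (hK : ∀ z ω : Fin (M + 2) → ℂ, ∑ k, z k * ω k = 1 →
      ∑ c, sg N c * eval z (P c) * eval ω (map (starRingEnd ℂ) (P c)) = 0)
    (hnc : ∃ c c', G 0 (P c) * G 1 (P c') - G 0 (P c') * G 1 (P c) ≠ 0) :
    ∃ (a : ℕ) (T : ℕ → Finset (Fin (M + 1) → ℕ)),
      (∀ k, ∀ μ ∈ T (k + 1), ∃ ν, μ = ν + Pi.single 0 1 ∧ ν ∈ T k ∧
        ∀ i, ν + Pi.single i 1 ∈ T k) ∧
      (∀ μ ∈ T 0, 1 ≤ μ 0) ∧ (T 0).card ≤ a ∧ d ≤ ∑ k ∈ Finset.range (a + 1), (T k).card ∧
      ∀ E : Finset (Fin M → ℕ), (∀ η ∈ E, ∃ μ ∈ T 0, ∃ α : Fin M → ℕ, ∑ i, α i ≤ μ 0 ∧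
        (∃ i j, i ≠ j ∧ α i ≠ 0 ∧ α j ≠ 0) ∧ η = fun i => μ i.succ + α i) →
        1 + (M + 1) * a + E.card ≤ N := by
  classical
  obtain ⟨ct, hct, hct0⟩ := htop
  obtain ⟨c, c', hcc⟩ := hnc
  obtain ⟨a, D, -, hD0, hmax, hge, -, -⟩ := exists_minor hP
  choose D2 rel hD20 hrel hrels using fun k => gen_rel_k hP k
  obtain ⟨ρ, hρ0, hρ⟩ := exists_rho hct0 hcop
  have hGt : G d (P ct) ≠ 0 := G_top hct hct0
  obtain ⟨ζ, ξ, h1, h2, h2', h3, hD, hρ', hGt', hmin⟩ :=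
    exists_frame (0 : Fin (M + 1)) hD0 hρ0 (mul_ne_zero hGt
      (Finset.prod_ne_zero_iff.2 fun k (_ : k ∈ Finset.range (a + 1)) => hD20 k)) hcc
  rw [map_mul, map_prod] at hGt'
  have hD2' := Finset.prod_ne_zero_iff.1 (right_ne_zero_of_mul hGt')
  replace hGt' := left_ne_zero_of_mul hGt'
  have hform := form_of_hK hK
  have hf : IsFrame ζ ξ := ⟨h1, h2, h2', h3⟩
  rw [map_sub, map_mul, map_mul] at hmin
  have he0 : vec P 0 ζ (ξ 0) ≠ 0 := by
    intro h0
    apply hmin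
    have h4 : ∀ c, eval (Sum.elim ζ (ξ 0)) (G 0 (P c)) = 0 := fun c => congrFun h0 c
    rw [h4, h4, zero_mul, zero_mul, sub_zero]
  have he : (fun c => eval ζ (P c)) ≠ (0 : Fin (N + 1) → ℂ) := by rwa [vec_zero] at he0
  have hnull : form (fun c => eval ζ (P c)) (fun c => eval ζ (P c)) = 0 := hform ζ ζ h1
  have heS : ∀ w, (fun c => eval ζ (P c)) ∈ Sp P d ζ w := by
    intro w
    rw [← vec_zero P ζ w]
    exact vec_mem hP _ _ _
  have ha1 : 1 ≤ a := by
    have h4 : (Submodule.span ℂ {vec P 0 ζ (ξ 0)}) ≤ Sp P d ζ (ξ 0) := by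
      rw [Submodule.span_singleton_le_iff_mem]
      exact vec_mem hP _ _ _
    have h5 := Submodule.finrank_mono h4
    rw [finrank_span_singleton he0] at h5
    exact h5.trans (hmax _ _)
  obtain ⟨a', rfl⟩ : ∃ a', a = a' + 1 := ⟨a - 1, by omega⟩
  have hnz : ∀ μ : ℂ, ∑ i ∈ Finset.range (d + 1), μ ^ i • vec P i ζ (ξ 0) ≠ 0 := by
    intro μ h4
    obtain ⟨c, hc⟩ := hρ ζ (ξ 0) hρ' μ
    apply hc
    have h5 := congrFun (pt_expand hP ζ (ξ 0) μ) c
    rw [h4] at h5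
    exact h5
  have hd0 : vec P d ζ (ξ 0) ≠ 0 := fun h4 => hGt' (congrFun h4 ct)
  have hfin : ∀ k, (Tset P d ζ ξ k).Finite := T_finite hP hform hf he (fun w => hmax ζ w)
  have hmemT : ∀ k μ, μ ∈ (hfin k).toFinset ↔ μ ∈ Tset P d ζ ξ k := fun k μ =>
    Set.Finite.mem_toFinset _
  refine ⟨a', fun k => (hfin k).toFinset.image fnv, ?_, ?_, ?_, ?_, ?_⟩
  · -- the chain property
    intro k μ hμ
    obtain ⟨⟨c, ν⟩, hν, rfl⟩ := Finset.mem_image.1 hμ
    rw [hmemT] at hν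
    have hc := Tset_pos hP hform hf hν
    obtain ⟨c', rfl⟩ : ∃ c', c = c' + 1 := ⟨c - 1, by omega⟩
    refine ⟨fnv (c', ν), (fnv_single_zero c' ν).symm, ?_, fun i => ?_⟩
    · refine Finset.mem_image_of_mem _ ((hmemT _ _).2 ?_)
      have h4 := Tset_shift hP hν 0
      rwa [ep_zero, add_zero] at h4
    · refine Fin.cases ?_ (fun i => ?_) i
      · rw [fnv_single_zero]
        exact Finset.mem_image_of_mem _ ((hmemT _ _).2 (Tset_anti (Nat.le_succ k) hν))
      · rw [fnv_single_succ]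
        refine Finset.mem_image_of_mem _ ((hmemT _ _).2 ?_)
        have h4 := Tset_shift hP hν i.succ
        rwa [ep_succ] at h4
  · intro μ hμ
    obtain ⟨⟨c, ν⟩, hν, rfl⟩ := Finset.mem_image.1 hμ
    rw [hmemT] at hν
    exact Tset_pos hP hform hf hν
  · refine (Finset.card_image_le).trans ?_
    exact T0_card hP hform hf he (fun w => hmax ζ w) _ fun μ hμ => (hmemT _ _).1 hμ
  · have h4 := frame_bound hP hform hf he (fun w => hmax ζ w) hnz hd0
      (D2 := D2) (rel := rel) (fun k hk => hD2' k (Finset.mem_range.2 (by omega))) hrel hrels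
      (fun k => (hfin k).toFinset) hmemT
    refine h4.trans (le_of_eq (Finset.sum_congr rfl fun k _ => ?_))
    exact (Finset.card_image_of_injective _ fnv_inj).symm
  · -- the rank count
    intro E hE
    obtain ⟨v, hv⟩ := count_dual (a := a') he hnull (fun i : Fin M => Sp P d ζ (ξ i.succ))
      (fun i => Sp_orth_e hP hform h1 (h2' _))
      (fun i j hij => Sp_orth hP hform h1 (h2 _) (h2' _) (by
        rw [h3, if_neg fun h => hij (Fin.succ_injective _ h)]))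
      (fun i => hge _ _ (hD _))
    have h4 := count_extra hP hform hf (hD 0) (fun w hw => hge ζ w hw) v hv
      (E.image (Finsupp.equivFunOnFinite.symm : (Fin M → ℕ) → (Fin M →₀ ℕ))) (by
        intro η hη
        obtain ⟨η', hη', rfl⟩ := Finset.mem_image.1 hη
        obtain ⟨μ, hμ, α, hα1, ⟨i, j, hij, hi, hj⟩, rfl⟩ := hE η' hη'
        obtain ⟨⟨c, ν⟩, hν, rfl⟩ := Finset.mem_image.1 hμ
        rw [hmemT] at hν
        refine ⟨c, ν, Finsupp.equivFunOnFinite.symm α, hν, hα1, ?_, ?_⟩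
        · intro hp
          rcases hp i j hij with h | h
          · exact hi h
          · exact hj h
        · ext l
          rfl)
    rw [Finset.card_image_of_injective _ (Equiv.injective _)] at h4
    have h5 : (M + 1) * a' = M * a' + a' := by ring
    omega

section Final

variable {M N K d : ℕ} {P : Fin (N + 1) → MvPolynomial (Fin (M + 2)) ℂ}

/-- The degree bound. -/
theorem bound_ratio (hP : ∀ c, (P c).totalDegree ≤ d) (htop : ∃ c, (P c).totalDegree = d ∧ P c ≠ 0)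
    (hcop : ∀ g, (∀ c, g ∣ P c) → g.totalDegree = 0)
    (hK : ∀ z ω : Fin (M + 2) → ℂ, ∑ k, z k * ω k = 1 →
      ∑ c, sg N c * eval z (P c) * eval ω (map (starRingEnd ℂ) (P c)) = 0)
    (hnc : ∃ c c', G 0 (P c) * G 1 (P c') - G 0 (P c') * G 1 (P c) ≠ 0)
    (hr : (N - 1) / (M + 1) ≤ (M + 1 + K).choose (M + 1)) :
    (M + 2) * d ≤ (M + 2 + K) * ((N - 1) / (M + 1)) := by
  obtain ⟨a, T, hT, -, hT0, hd, hE⟩ := main_data hP htop hcop hK hnc
  have h1 := hE ∅ (fun η hη => absurd hη (Finset.notMem_empty η))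
  rw [Finset.card_empty, add_zero] at h1
  have h2 : a ≤ (N - 1) / (M + 1) := by
    rw [Nat.le_div_iff_mul_le (show 0 < M + 1 by omega), mul_comm]
    omega
  calc (M + 2) * d ≤ (M + 2) * ∑ k ∈ Finset.range (a + 1), (T k).card :=
        Nat.mul_le_mul_left _ hd
    _ ≤ (M + 2 + K) * (T 0).card := sum_card_le T hT ((hT0.trans h2).trans hr) (a + 1)
    _ ≤ (M + 2 + K) * ((N - 1) / (M + 1)) := Nat.mul_le_mul_left _ (hT0.trans h2)

/-- The exact degree bound. -/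
theorem bound_exact (hP : ∀ c, (P c).totalDegree ≤ d) (htop : ∃ c, (P c).totalDegree = d ∧ P c ≠ 0)
    (hcop : ∀ g, (∀ c, g ∣ P c) → g.totalDegree = 0)
    (hK : ∀ z ω : Fin (M + 2) → ℂ, ∑ k, z k * ω k = 1 →
      ∑ c, sg N c * eval z (P c) * eval ω (map (starRingEnd ℂ) (P c)) = 0)
    (hnc : ∃ c c', G 0 (P c) * G 1 (P c') - G 0 (P c') * G 1 (P c) ≠ 0)
    (hr : (N - 1) / (M + 1) ≤ (M + 1 + K).choose (M + 1))
    (hKn : 2 * (K + 1) * (K + 2) ≤ M + 2) : d ≤ (N - 1) / (M + 1) := by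
  classical
  obtain ⟨a, T, hT, hT1, hT0, hd, hE⟩ := main_data hP htop hcop hK hnc
  have h1 := hE ∅ (fun η hη => absurd hη (Finset.notMem_empty η))
  rw [Finset.card_empty, add_zero] at h1
  have h2 : a ≤ (N - 1) / (M + 1) := by
    rw [Nat.le_div_iff_mul_le (show 0 < M + 1 by omega), mul_comm]
    omega
  have hsub : ∀ μ ∈ T 1, μ ∈ T 0 := by
    intro μ hμ
    obtain ⟨ν, h3, -, h4⟩ := hT 0 μ hμ
    rw [h3]
    exact h4 0
  set E : Finset (Fin M → ℕ) := (T 1).biUnion fun μ =>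
    ((Fintype.piFinset fun _ : Fin M => Finset.range (μ 0 + 1)).filter fun α =>
      ∑ i, α i ≤ μ 0 ∧ ∃ i j, i ≠ j ∧ α i ≠ 0 ∧ α j ≠ 0).image fun α i => μ i.succ + α i with hEdef
  have h3 := hE E (by
    intro η hη
    obtain ⟨μ, hμ, hη⟩ := Finset.mem_biUnion.1 hη
    obtain ⟨α, hα, rfl⟩ := Finset.mem_image.1 hη
    obtain ⟨-, hα1, hα2⟩ := Finset.mem_filter.1 hα
    exact ⟨μ, hsub μ hμ, α, hα1, hα2, rfl⟩)
  have h4 := sum_card_le_card T hT ((hT0.trans h2).trans hr) hKn E (by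
    intro μ hμ α hα1 hα2
    rw [hEdef]
    refine Finset.mem_biUnion.2 ⟨μ, hμ, Finset.mem_image.2 ⟨α, Finset.mem_filter.2 ⟨?_, hα1, hα2⟩,
      rfl⟩⟩
    rw [Fintype.mem_piFinset]
    intro i
    rw [Finset.mem_range]
    have := Finset.single_le_sum (fun j _ => Nat.zero_le (α j)) (Finset.mem_univ i)
    omega) (by
    intro μ hμ
    obtain ⟨ν, h5, h6, -⟩ := hT 0 μ hμ
    have h7 := hT1 ν h6
    rw [h5, Pi.add_apply, Pi.single_eq_same]
    omega) a
  rw [Finset.sum_range_succ'] at hd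
  rw [Nat.le_div_iff_mul_le (show 0 < M + 1 by omega)]
  have h5 : d * (M + 1) ≤ (M + 1) * a + E.card := by
    calc d * (M + 1) ≤ (∑ k ∈ Finset.range a, (T (k + 1)).card + (T 0).card) * (M + 1) :=
          Nat.mul_le_mul_right _ hd
      _ = (M + 1) * ∑ k ∈ Finset.range a, (T (k + 1)).card + (M + 1) * (T 0).card := by ring
      _ ≤ E.card + (M + 1) * a := Nat.add_le_add h4 (Nat.mul_le_mul_left _ hT0)
      _ = (M + 1) * a + E.card := by ring
  omega

end Final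

end Helper35.BallT
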