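import Pool.Agent.Helper35.BallT.Sections
import Pool.Agent.Helper62.DA.GenRel

/-!
The sets of leading exponents are finite, `T_0` has at most `a` elements, and the spaces of numerical
relations are bounded by `T_k`.
-/

namespace Helper35.BallT

open MvPolynomial Helper38.BallD Helper35.BallK

variable {n N M : ℕ}

/-- Independence of vectors with different leading positions. -/
lemma li_of_lead {ι κ : Type*} [Fintype ι] [LinearOrder κ] (g : ι → κ → ℂ) (l : ι → κ)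
    (hinj : Function.Injective l) (hne : ∀ i, g i (l i) ≠ 0) (hlt : ∀ i k, k < l i → g i k = 0) :
    LinearIndependent ℂ g := by
  classical
  rw [Fintype.linearIndependent_iff]
  intro b hb
  by_contra hcon
  push Not at hcon
  obtain ⟨i1, hi1⟩ := hcon
  obtain ⟨i, hi, hmin⟩ := Finset.exists_min_image (Finset.univ.filter fun i => b i ≠ 0) l
    ⟨i1, by simp [hi1]⟩
  have hbi : b i ≠ 0 := (Finset.mem_filter.1 hi).2
  have h1 := congrFun hb (l i)
  rw [Finset.sum_apply, Pi.zero_apply, Finset.sum_eq_single i] at h1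
  · rw [Pi.smul_apply, smul_eq_mul] at h1
    exact mul_ne_zero hbi (hne i) h1
  · intro j _ hj
    rw [Pi.smul_apply, smul_eq_mul]
    by_cases hbj : b j = 0
    · rw [hbj, zero_mul]
    · rw [hlt j, mul_zero]
      refine lt_of_le_of_ne (hmin j (by simp [hbj])) fun h => hj (hinj h.symm)
  · intro h
    exact absurd (Finset.mem_univ _) h

/-- The positions: exponents, ordered lexicographically. -/
abbrev Pos (M : ℕ) := Lex (ℕ × Lex (Fin M →₀ ℕ))

/-- The position of an exponent. -/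
def pos {M : ℕ} (μ : ℕ × (Fin M →₀ ℕ)) : Pos M := toLex (μ.1, toLex μ.2)

lemma pos_inj : Function.Injective (pos : ℕ × (Fin M →₀ ℕ) → Pos M) := by
  intro a b h
  have h1 := congrArg (fun p : Pos M => (ofLex p).1) h
  have h2 := congrArg (fun p : Pos M => ofLex (ofLex p).2) h
  exact Prod.ext h1 h2

/-- The coefficient of `F` at a position. -/
noncomputable def cf {R : Type*} [CommSemiring R] (F : Polynomial (MvPolynomial (Fin M) R))
    (p : Pos M) : R := coeff (ofLex (ofLex p).2) (F.coeff (ofLex p).1)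

lemma cf_pos {R : Type*} [CommSemiring R] (F : Polynomial (MvPolynomial (Fin M) R))
    (μ : ℕ × (Fin M →₀ ℕ)) : cf F (pos μ) = coeff μ.2 (F.coeff μ.1) := rfl

lemma cf_ext {R : Type*} [CommSemiring R] {F : Polynomial (MvPolynomial (Fin M) R)}
    (h : ∀ p, cf F p = 0) : F = 0 := by
  ext1 j
  ext1 ν
  rw [Polynomial.coeff_zero, coeff_zero]
  exact h (pos (j, ν))

lemma Lead.cf_ne {R : Type*} [CommRing R] {F : Polynomial (MvPolynomial (Fin M) R)}
    {μ : ℕ × (Fin M →₀ ℕ)} (h : Lead F μ.1 μ.2) : cf F (pos μ) ≠ 0 := h.2.1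

lemma Lead.cf_lt {R : Type*} [CommRing R] {F : Polynomial (MvPolynomial (Fin M) R)}
    {μ : ℕ × (Fin M →₀ ℕ)} (h : Lead F μ.1 μ.2) {p : Pos M} (hp : p < pos μ) : cf F p = 0 := by
  rw [Prod.Lex.lt_iff] at hp
  unfold cf
  rcases hp with hp | ⟨hp1, hp2⟩
  · rw [h.1 _ hp, coeff_zero]
  · have h1 : (ofLex p).1 = μ.1 := hp1
    rw [h1]
    exact h.2.2 _ hp2

/-- The numerical pairing with `P(ω)` at a point `x`. -/
noncomputable def Lc (P : Fin (N + 1) → MvPolynomial (Fin n) ℂ) (ζ : Fin n → ℂ)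
    (ξ : Fin (M + 1) → Fin n → ℂ) (x : Fin (M + 1) → ℂ) :
    (Fin (N + 1) → ℂ) →ₗ[ℂ] (Pos M → ℂ) where
  toFun v p := eval x (cf (Ph P ζ ξ (fun c => C (v c))) p)
  map_add' u v := by
    funext p
    have h1 : (fun c => C ((u + v) c) : Fin (N + 1) → Rx M)
        = (fun c => C (u c)) + fun c => C (v c) := by
      funext c
      rw [Pi.add_apply, C_add, Pi.add_apply]
    rw [h1, Ph_add, Pi.add_apply, ← map_add]
    congr 1
  map_smul' a v := by
    funext p
    have h1 : (fun c => C ((a • v) c) : Fin (N + 1) → Rx M) = (C a : Rx M) • fun c => C (v c) := by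
      funext c
      rw [Pi.smul_apply, smul_eq_mul, C_mul, Pi.smul_apply, smul_eq_mul]
    rw [h1, Ph_smul, RingHom.id_apply, Pi.smul_apply, smul_eq_mul]
    unfold cf
    rw [Polynomial.coeff_C_mul, coeff_C_mul, map_mul, eval_C]

lemma Lc_apply (P : Fin (N + 1) → MvPolynomial (Fin n) ℂ) (ζ : Fin n → ℂ)
    (ξ : Fin (M + 1) → Fin n → ℂ) (x : Fin (M + 1) → ℂ) (v : Fin (N + 1) → ℂ) (p : Pos M) :
    Lc P ζ ξ x v p = eval x (cf (Ph P ζ ξ (fun c => C (v c))) p) := rfl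

/-- The values of the pairing depend only on the value of the vector at `x`. -/
lemma Lc_eval (P : Fin (N + 1) → MvPolynomial (Fin n) ℂ) (ζ : Fin n → ℂ)
    (ξ : Fin (M + 1) → Fin n → ℂ) (x : Fin (M + 1) → ℂ) (u : Fin (N + 1) → Rx M) (p : Pos M) :
    Lc P ζ ξ x (fun c => eval x (u c)) p = eval x (cf (Ph P ζ ξ u) p) := by
  rw [Lc_apply]
  unfold cf
  rw [← coeff_evx, ← coeff_evx]
  have h1 : evx x (Ph P ζ ξ (fun c => C (eval x (u c)))) = evx x (Ph P ζ ξ u) := by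
    unfold Ph
    rw [map_sum, map_sum]
    refine Finset.sum_congr rfl fun c _ => ?_
    have h2 : evx x (Polynomial.C (C (C (sg N c) * C (eval x (u c)))))
        = evx x (Polynomial.C (C (C (sg N c) * u c))) := by
      simp [evx]
    rw [map_mul (evx x), map_mul (evx x), h2]
  rw [h1]

lemma Lc_eval_fun (P : Fin (N + 1) → MvPolynomial (Fin n) ℂ) (ζ : Fin n → ℂ)
    (ξ : Fin (M + 1) → Fin n → ℂ) (x : Fin (M + 1) → ℂ) (u : Fin (N + 1) → Rx M) :
    Lc P ζ ξ x (fun c => eval x (u c)) = fun p => eval x (cf (Ph P ζ ξ u) p) := by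
  funext p
  exact Lc_eval P ζ ξ x u p

lemma Lc_zero_iff (P : Fin (N + 1) → MvPolynomial (Fin n) ℂ) (ζ : Fin n → ℂ)
    (ξ : Fin (M + 1) → Fin n → ℂ) (x : Fin (M + 1) → ℂ) (v : Fin (N + 1) → ℂ)
    (h : Lc P ζ ξ x v = 0) (s : ℂ) (t : Fin M → ℂ) :
    form v (fun c => eval (Wp ζ ξ x s t) (P c)) = 0 := by
  have h1 : evx x (Ph P ζ ξ (fun c => C (v c))) = 0 := by
    apply cf_ext
    intro p
    have h2 := congrFun h p
    rw [Lc_apply] at h2
    unfold cf at h2 ⊢
    rw [coeff_evx, h2]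
    rfl
  have h2 := evt_Ph P ζ ξ (fun c => C (v c)) x s t
  simp only [eval_C] at h2
  rw [← h2]
  unfold evt
  rw [RingHom.comp_apply, RingHom.comp_apply, h1, map_zero, map_zero]

variable {P : Fin (N + 1) → MvPolynomial (Fin n) ℂ} {d : ℕ} {ζ : Fin n → ℂ}
  {ξ : Fin (M + 1) → Fin n → ℂ}

lemma exists_eval_ne {σ ι : Type*} (s : Finset ι) (g : ι → MvPolynomial σ ℂ)
    (hg : ∀ i ∈ s, g i ≠ 0) : ∃ x, ∀ i ∈ s, eval x (g i) ≠ 0 := by
  have h1 : ∏ i ∈ s, g i ≠ 0 := Finset.prod_ne_zero_iff.2 hg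
  obtain ⟨x, hx⟩ : ∃ x, eval x (∏ i ∈ s, g i) ≠ 0 := by
    by_contra hcon
    push Not at hcon
    exact h1 (MvPolynomial.funext fun v => by rw [hcon v, map_zero])
  rw [map_prod] at hx
  exact ⟨x, fun i hi => Finset.prod_ne_zero_iff.1 hx i hi⟩

/-- `T_0` has at most `a` elements. -/
theorem T0_card (hP : ∀ c, (P c).totalDegree ≤ d)
    (hform : ∀ z w : Fin n → ℂ, ∑ k, z k * starRingEnd ℂ (w k) = 1 →
      form (fun c => eval z (P c)) (fun c => eval w (P c)) = 0) (hf : IsFrame ζ ξ)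
    (he : (fun c => eval ζ (P c)) ≠ (0 : Fin (N + 1) → ℂ)) {a : ℕ}
    (ha : ∀ w, Module.finrank ℂ (Sp P d ζ w) ≤ a + 1) (F : Finset (ℕ × (Fin M →₀ ℕ)))
    (hF : ∀ μ ∈ F, μ ∈ Tset P d ζ ξ 0) : F.card ≤ a := by
  classical
  choose! u hu hl using hF
  obtain ⟨x, hx⟩ := exists_eval_ne F (fun μ => cf (Ph P ζ ξ (u μ)) (pos μ))
    (fun μ hμ => (hl μ hμ).cf_ne)
  have hli : LinearIndependent ℂ (fun μ : F => Lc P ζ ξ x (fun c => eval x (u μ c))) := by
    apply li_of_lead _ (fun μ : F => pos (μ : ℕ × (Fin M →₀ ℕ)))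
    · intro μ μ' h
      exact Subtype.ext (pos_inj h)
    · intro μ
      rw [Lc_eval]
      exact hx μ μ.2
    · intro μ p hp
      rw [Lc_eval, (hl μ μ.2).cf_lt hp, map_zero]
  set S := Sp P d ζ (Lx ζ ξ x) with hS
  set f := (Lc P ζ ξ x).domRestrict S with hfdef
  have h1 := LinearMap.finrank_range_add_finrank_ker f
  have h2 : F.card ≤ Module.finrank ℂ (LinearMap.range f) := by
    have hfr : ∀ μ : F, Lc P ζ ξ x (fun c => eval x (u μ c)) ∈ LinearMap.range f := fun μ =>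
      ⟨⟨_, U_eval hP (hu μ μ.2) x⟩, rfl⟩
    have h3 : LinearIndependent ℂ (fun μ : F => (⟨_, hfr μ⟩ : LinearMap.range f)) :=
      LinearIndependent.of_comp (LinearMap.range f).subtype hli
    have h4 := h3.fintype_card_le_finrank
    rwa [Fintype.card_coe] at h4
  have h3 : 1 ≤ Module.finrank ℂ (LinearMap.ker f) := by
    have heS : (fun c => eval ζ (P c)) ∈ S := by
      rw [← vec_zero P ζ (Lx ζ ξ x)]
      exact vec_mem hP _ _ _
    have h4 : (⟨_, heS⟩ : S) ∈ LinearMap.ker f := by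
      rw [LinearMap.mem_ker, hfdef, LinearMap.domRestrict_apply]
      funext p
      rw [Lc_apply, Ph_e hform hf]
      unfold cf
      rw [Polynomial.coeff_zero, coeff_zero, map_zero]
      rfl
    rw [Nat.one_le_iff_ne_zero]
    intro h5
    rw [Submodule.finrank_eq_zero] at h5
    rw [h5, Submodule.mem_bot] at h4
    exact he (congrArg Subtype.val h4)
  have h4 : Module.finrank ℂ S ≤ a + 1 := ha (Lx ζ ξ x)
  omega

lemma T_finite (hP : ∀ c, (P c).totalDegree ≤ d)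
    (hform : ∀ z w : Fin n → ℂ, ∑ k, z k * starRingEnd ℂ (w k) = 1 →
      form (fun c => eval z (P c)) (fun c => eval w (P c)) = 0) (hf : IsFrame ζ ξ)
    (he : (fun c => eval ζ (P c)) ≠ (0 : Fin (N + 1) → ℂ)) {a : ℕ}
    (ha : ∀ w, Module.finrank ℂ (Sp P d ζ w) ≤ a + 1) (k : ℕ) : (Tset P d ζ ξ k).Finite := by
  by_contra hinf
  obtain ⟨F, hF, hcard⟩ := Set.Infinite.exists_subset_card_eq hinf (a + 1)
  have := T0_card hP hform hf he ha F (fun μ hμ => Tset_anti (Nat.zero_le k) (hF hμ))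
  omega

/-- The rank of sections which are independent at one point. -/
theorem rank_le {k q : ℕ} (T : Finset (ℕ × (Fin M →₀ ℕ)))
    (hT : ∀ μ ∈ Tset P d ζ ξ k, μ ∈ T) (u : Fin q → Fin (N + 1) → Rx M)
    (hu : ∀ j, u j ∈ U P d ζ ξ k) (x : Fin (M + 1) → ℂ)
    (hli : LinearIndependent ℂ (fun j p => eval x (cf (Ph P ζ ξ (u j)) p))) : q ≤ T.card := by
  classical
  by_contra hlt
  push Not at hlt
  set g : Fin q → T → Rx M := fun j μ => cf (Ph P ζ ξ (u j)) (pos (μ : ℕ × (Fin M →₀ ℕ))) with hg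
  have hnot : ¬ LinearIndependent (Rx M) g := by
    intro h
    have h1 := h.fintype_card_le_finrank
    rw [Fintype.card_fin, Module.finrank_fintype_fun_eq_card, Fintype.card_coe] at h1
    omega
  rw [Fintype.not_linearIndependent_iff] at hnot
  obtain ⟨a, ha, j0, hj0⟩ := hnot
  have hPh : Ph P ζ ξ (∑ j, a j • u j) = ∑ j, Polynomial.C (C (a j)) * Ph P ζ ξ (u j) := by
    rw [Ph_sum]
    exact Finset.sum_congr rfl fun j _ => Ph_smul _ _ _ _ _
  have hcf : ∀ p, cf (Ph P ζ ξ (∑ j, a j • u j)) p = ∑ j, a j * cf (Ph P ζ ξ (u j)) p := by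
    intro p
    rw [hPh]
    unfold cf
    rw [Polynomial.finsetSum_coeff, coeff_sum]
    refine Finset.sum_congr rfl fun j _ => ?_
    rw [Polynomial.coeff_C_mul, coeff_C_mul]
  have hzero : Ph P ζ ξ (∑ j, a j • u j) = 0 := by
    by_contra hne
    obtain ⟨c, ν, hl⟩ := exists_lead hne
    have h1 : (c, ν) ∈ T := hT _ ⟨_, Submodule.sum_mem _ fun j _ =>
      Submodule.smul_mem _ _ (hu j), hl⟩
    apply hl.2.1
    have h2 := congrFun ha ⟨(c, ν), h1⟩
    rw [Finset.sum_apply, Pi.zero_apply] at h2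
    have h3 := hcf (pos (c, ν))
    rw [cf_pos] at h3
    rw [h3, ← h2]
    exact Finset.sum_congr rfl fun j _ => by rw [Pi.smul_apply, smul_eq_mul]
  have h1 := spec_domain (fun j p => cf (Ph P ζ ξ (u j)) p) x hli a (fun p => by
    rw [← hcf, hzero]
    unfold cf
    rw [Polynomial.coeff_zero, coeff_zero])
  exact hj0 (congrFun h1 j0)

lemma Lx_zero (ζ : Fin n → ℂ) (ξ : Fin (M + 1) → Fin n → ℂ) :
    Lx ζ ξ (0 : Fin (M + 1) → ℂ) = ξ 0 := by
  funext i
  simp [Lx]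

/-- Numerical relations are values of polynomial relations. -/
lemma exists_sections {k q : ℕ} {D : R2 n} {rel : Fin (d + k) → Fin (d + k) → R2 n}
    (hD : eval (Sum.elim ζ (ξ 0)) D ≠ 0)
    (hrel : ∀ l, IsRel P d k (fun i => if h : i < d + k then rel l ⟨i, h⟩ else 0))
    (s : Fin q → ℕ → ℂ) (hs0 : ∀ j i, d + k ≤ i → s j i = 0)
    (hnum : ∀ j j', ∑ l : Fin (d + k), s j l * eval (Sum.elim ζ (ξ 0)) (rel l j')
      = -(eval (Sum.elim ζ (ξ 0)) D) * s j j') :
    ∃ u : Fin q → Fin (N + 1) → Rx M, (∀ j, u j ∈ U P d ζ ξ k) ∧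
      ∀ j, (fun c => eval (0 : Fin (M + 1) → ℂ) (u j c))
        = ∑ i ∈ Finset.range (d + 1), s j i • vec P (i + 1) ζ (ξ 0) := by
  classical
  refine ⟨fun j => ∑ l : Fin (d + k), (C (-(s j l) / eval (Sum.elim ζ (ξ 0)) D) : Rx M) •
    fun c => sub ζ ξ (shiftRel P d (fun i => if h : i < d + k then rel l ⟨i, h⟩ else 0) c),
    fun j => Submodule.sum_mem _ fun l _ => Submodule.smul_mem _ _ (rel_mem_U (hrel l)), ?_⟩
  intro j
  funext c
  simp only [Finset.sum_apply, Pi.smul_apply, smul_eq_mul, map_sum, map_mul, eval_C, eval_sub,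
    Lx_zero, shiftRel, Finset.mul_sum]
  rw [Finset.sum_comm]
  refine Finset.sum_congr rfl fun i hi => ?_
  by_cases hik : i < d + k
  · have h3 := hnum j ⟨i, hik⟩
    simp only [hik, dif_pos]
    have h5 : ∑ l : Fin (d + k), -(s j l) / eval (Sum.elim ζ (ξ 0)) D *
        (eval (Sum.elim ζ (ξ 0)) (rel l ⟨i, hik⟩) * eval (Sum.elim ζ (ξ 0)) (G (i + 1) (P c)))
        = -(1 / eval (Sum.elim ζ (ξ 0)) D) *
          (∑ l : Fin (d + k), s j l * eval (Sum.elim ζ (ξ 0)) (rel l ⟨i, hik⟩)) *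
          eval (Sum.elim ζ (ξ 0)) (G (i + 1) (P c)) := by
      rw [Finset.mul_sum, Finset.sum_mul]
      exact Finset.sum_congr rfl fun l _ => by ring
    rw [h5, h3]
    simp only [vec]
    field_simp
  · rw [hs0 j i (by omega), zero_mul]
    refine Finset.sum_eq_zero fun l _ => ?_
    simp only [hik, dif_neg, not_false_iff, map_zero, zero_mul, mul_zero]

/-- The numerical relations of length `k` at `(ζ, ξ_0)` are bounded by `T_k`. -/
theorem numeric_le (hP : ∀ c, (P c).totalDegree ≤ d)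
    (hform : ∀ z w : Fin n → ℂ, ∑ k, z k * starRingEnd ℂ (w k) = 1 →
      form (fun c => eval z (P c)) (fun c => eval w (P c)) = 0) (hf : IsFrame ζ ξ)
    (he : (fun c => eval ζ (P c)) ≠ (0 : Fin (N + 1) → ℂ)) {k q : ℕ}
    (T : Finset (ℕ × (Fin M →₀ ℕ))) (hT : ∀ μ ∈ Tset P d ζ ξ k, μ ∈ T)
    (s : Fin q → ℕ → ℂ) (u : Fin q → Fin (N + 1) → Rx M) (huU : ∀ j, u j ∈ U P d ζ ξ k)
    (hval : ∀ j, (fun c => eval (0 : Fin (M + 1) → ℂ) (u j c))
        = ∑ i ∈ Finset.range (d + 1), s j i • vec P (i + 1) ζ (ξ 0))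
    (hind : ∀ b : Fin q → ℂ, (∃ κ : ℂ, ∑ j, b j • ∑ i ∈ Finset.range (d + 1),
      s j i • vec P (i + 1) ζ (ξ 0) = κ • vec P 0 ζ (ξ 0)) → b = 0) : q ≤ T.card := by
  classical
  refine rank_le T hT u huU 0 ?_
  rw [Fintype.linearIndependent_iff]
  intro b hb
  have hLw : Lc P ζ ξ 0 (∑ j, b j • fun c => eval (0 : Fin (M + 1) → ℂ) (u j c)) = 0 := by
    rw [map_sum, ← hb]
    refine Finset.sum_congr rfl fun j _ => ?_
    rw [map_smul, Lc_eval_fun]
  have hwS : (∑ j, b j • fun c => eval (0 : Fin (M + 1) → ℂ) (u j c)) ∈ Sp P d ζ (ξ 0) := by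
    refine Submodule.sum_mem _ fun j _ => Submodule.smul_mem _ _ ?_
    have := U_eval hP (huU j) 0
    rwa [Lx_zero] at this
  have hw' : ∑ j, b j • ∑ i ∈ Finset.range (d + 1), s j i • vec P (i + 1) ζ (ξ 0)
      = ∑ j, b j • fun c => eval (0 : Fin (M + 1) → ℂ) (u j c) :=
    Finset.sum_congr rfl fun j _ => by rw [hval j]
  rw [← hw'] at hLw hwS
  have hb0 : b = 0 := by
    apply hind
    have hzero := Lc_zero_iff P ζ ξ 0 _ hLw
    have h1 : ∀ a : ℂ, form (∑ j, b j • ∑ i ∈ Finset.range (d + 1), s j i • vec P (i + 1) ζ (ξ 0))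
        (fun c => eval (fun k => ζ k + a * ξ 0 k) (P c)) = 0 := by
      intro a
      have h2 := hzero (starRingEnd ℂ a) 0
      have h3 : Wp ζ ξ 0 (starRingEnd ℂ a) (0 : Fin M → ℂ) = fun k => ζ k + a * ξ 0 k := by
        funext k
        simp [Wp, mul_comm]
      rw [h3] at h2
      exact h2
    have h2 := Sp_perp' hP h1 _ hwS
    have h3 : form (∑ j, b j • ∑ i ∈ Finset.range (d + 1), s j i • vec P (i + 1) ζ (ξ 0))
        (fun c => eval ζ (P c)) = 0 := by
      have := h1 0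
      simpa using this
    have h4 : form (fun c => eval ζ (P c)) (fun c => eval ζ (P c)) = 0 := hform ζ ζ hf.h1
    rw [vec_zero]
    exact null_prop he h4 h3 h2
  exact fun j => congrFun hb0 j

end Helper35.BallT
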