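import Pool.Agent.Helper35.BallT.Count

/-!
The rank count with the mixed derivatives of sections.
-/

namespace Helper35.BallT

open MvPolynomial Helper38.BallD Helper35.BallK

variable {n N M : ℕ}

/-! ### Iterated derivations -/

lemma coeff_DD_low {i : Fin (M + 1)} {F : St M} {c : ℕ} (h : ∀ j < c + 1, F.coeff j = 0) :
    (∀ j < c, (DD i F).coeff j = 0) ∧
      (DD i F).coeff c = TT i * (C (((c : ℕ) : Rx M) + 1) * F.coeff (c + 1)) := by
  constructor
  · intro j hj
    rw [coeff_DD, h j (by omega), h (j + 1) (by omega), map_zero, zero_add, zero_mul, mul_zero]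
  · rw [coeff_DD, h c (Nat.lt_succ_self c), map_zero, zero_add]
    congr 1
    rw [mul_comm, map_add, map_natCast, map_one]

/-- Iterated derivations. -/
noncomputable def DDl (l : List (Fin (M + 1))) (F : St M) : St M := l.foldl (fun F i => DD i F) F

lemma coeff_DDl : ∀ (l : List (Fin (M + 1))) (F : St M), (∀ j < l.length, F.coeff j = 0) →
    (DDl l F).coeff 0
      = C ((l.length.factorial : ℕ) : Rx M) * ((l.map TT).prod * F.coeff l.length) := by
  intro l
  induction l with
  | nil =>
    intro F _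
    simp [DDl]
  | cons i l ih =>
    intro F hF
    rw [List.length_cons] at hF
    obtain ⟨h1, h2⟩ := coeff_DD_low (i := i) hF
    have h3 : DDl (i :: l) F = DDl l (DD i F) := rfl
    rw [h3, ih _ h1, h2, List.length_cons, Nat.factorial_succ, List.map_cons, List.prod_cons]
    push_cast
    simp only [C_mul, C_add, map_natCast, map_one]
    ring

/-- Iterated derivatives of a vector of polynomials. -/
noncomputable def dl (l : List (Fin (M + 1))) (u : Fin (N + 1) → Rx M) : Fin (N + 1) → Rx M :=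
  l.foldl (fun u i => fun c => pderiv i (u c)) u

lemma DDl_Ph (P : Fin (N + 1) → MvPolynomial (Fin n) ℂ) (ζ : Fin n → ℂ)
    (ξ : Fin (M + 1) → Fin n → ℂ) : ∀ (l : List (Fin (M + 1))) (u : Fin (N + 1) → Rx M),
    DDl l (Ph P ζ ξ u) = Ph P ζ ξ (dl l u) := by
  intro l
  induction l with
  | nil => intro u; rfl
  | cons i l ih =>
    intro u
    have h3 : DDl (i :: l) (Ph P ζ ξ u) = DDl l (DD i (Ph P ζ ξ u)) := rfl
    rw [h3, DD_Ph, ih]
    rfl

lemma exists_word (α : Fin M →₀ ℕ) : ∀ c, ∑ i, α i ≤ c →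
    ∃ l : List (Fin (M + 1)), l.length = c ∧
      (l.map TT).prod = (monomial α 1 : MvPolynomial (Fin M) (Rx M)) := by
  classical
  induction h : ∑ i, α i generalizing α with
  | zero =>
    intro c _
    have hα : α = 0 := by
      ext i
      exact (Finset.sum_eq_zero_iff.1 h) i (Finset.mem_univ i)
    refine ⟨List.replicate c 0, List.length_replicate, ?_⟩
    rw [List.map_replicate, List.prod_replicate, TT_zero, one_pow, hα]
    rfl
  | succ m ih =>
    intro c hc
    obtain ⟨i, -, hi⟩ : ∃ i ∈ Finset.univ, α i ≠ 0 := by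
      by_contra hcon
      push Not at hcon
      rw [Finset.sum_eq_zero hcon] at h
      omega
    obtain ⟨β, rfl⟩ : ∃ β, α = β + Finsupp.single i 1 := by
      refine ⟨α - Finsupp.single i 1, (tsub_add_cancel_of_le ?_).symm⟩
      rw [Finsupp.single_le_iff]
      omega
    have h1 : ∑ j, (β + Finsupp.single i 1 : Fin M →₀ ℕ) j = ∑ j, β j + 1 := by
      simp only [Finsupp.add_apply, Finset.sum_add_distrib]
      congr 1
      simp [Finsupp.single_apply]
    obtain ⟨l, hl1, hl2⟩ := ih β (by omega) (c - 1) (by omega)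
    refine ⟨i.succ :: l, by rw [List.length_cons, hl1]; omega, ?_⟩
    rw [List.map_cons, List.prod_cons, hl2, TT_succ, X, monomial_mul, one_mul,
      add_comm (Finsupp.single i 1) β]

/-- An exponent with at most one nonzero entry. -/
def Pure (η : Fin M →₀ ℕ) : Prop := ∀ i j, i ≠ j → η i = 0 ∨ η j = 0

/-- The mixed derivatives of a section. -/
lemma exists_mixed {P : Fin (N + 1) → MvPolynomial (Fin n) ℂ} {d : ℕ} {ζ : Fin n → ℂ}
    {ξ : Fin (M + 1) → Fin n → ℂ} {c : ℕ} {ν α : Fin M →₀ ℕ} (hμ : (c, ν) ∈ Tset P d ζ ξ 0)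
    (hα : ∑ i, α i ≤ c) (hmix : ¬ Pure α) :
    ∃ w : Fin (N + 1) → Rx M, coeff (ν + α) ((Ph P ζ ξ w).coeff 0) ≠ 0 ∧
      (∀ ν', toLex ν' < toLex (ν + α) → coeff ν' ((Ph P ζ ξ w).coeff 0) = 0) ∧
      (∀ η, Pure η → coeff η ((Ph P ζ ξ w).coeff 0) = 0) := by
  classical
  obtain ⟨u, -, hl⟩ := hμ
  obtain ⟨l, hlen, hprod⟩ := exists_word α c hα
  have h1 : (Ph P ζ ξ (dl l u)).coeff 0 = C ((c.factorial : ℕ) : Rx M) *
      (monomial α 1 * (Ph P ζ ξ u).coeff c) := by
    rw [← DDl_Ph, coeff_DDl l _ (fun j hj => hl.1 j (by rwa [hlen] at hj)), hlen, hprod]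
  refine ⟨dl l u, ?_, ?_, ?_⟩
  · have h2 : coeff (ν + α) (monomial α 1 * (Ph P ζ ξ u).coeff c)
        = coeff ν ((Ph P ζ ξ u).coeff c) := by
      rw [add_comm ν α, coeff_monomial_mul, one_mul]
    rw [h1, coeff_C_mul, h2]
    refine mul_ne_zero ?_ hl.2.1
    exact_mod_cast Nat.factorial_ne_zero c
  · intro ν' hν'
    rw [h1, coeff_C_mul, coeff_monomial_mul']
    split_ifs with hle
    · obtain ⟨κ, rfl⟩ := exists_add_of_le hle
      rw [add_tsub_cancel_left, one_mul]
      have h2 : toLex κ < toLex ν := by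
        rw [toLex_add, toLex_add, add_comm] at hν'
        exact lt_of_add_lt_add_right hν'
      rw [hl.2.2 κ h2, mul_zero]
    · rw [mul_zero]
  · intro η hη
    rw [h1, coeff_C_mul, coeff_monomial_mul']
    split_ifs with hle
    · exfalso
      apply hmix
      intro i j hij
      rcases hη i j hij with h2 | h2
      · left
        have := hle i
        omega
      · right
        have := hle j
        omega
    · rw [mul_zero]

/-! ### The axes -/

/-- A polynomial whose pure coefficients vanish is zero on the axes. -/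
lemma eval_axis {f : MvPolynomial (Fin M) ℂ} (h : ∀ η, Pure η → coeff η f = 0) (l : Fin M) (s : ℂ) :
    eval (Pi.single l s : Fin M → ℂ) f = 0 := by
  classical
  rw [eval_eq']
  refine Finset.sum_eq_zero fun η _ => ?_
  by_cases hη : Pure η
  · rw [h η hη, zero_mul]
  · unfold Pure at hη
    push Not at hη
    obtain ⟨i, j, hij, hi, hj⟩ := hη
    have hk : ∃ k, k ≠ l ∧ η k ≠ 0 := by
      by_cases hil : i = l
      · exact ⟨j, fun h => hij (by rw [hil, h]), hj⟩
      · exact ⟨i, hil, hi⟩
    obtain ⟨k, hkl, hk0⟩ := hk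
    rw [Finset.prod_eq_zero (Finset.mem_univ k), mul_zero]
    rw [Pi.single_eq_of_ne hkl, zero_pow hk0]

lemma eval_origin {f : MvPolynomial (Fin M) ℂ} (h : ∀ η, Pure η → coeff η f = 0) :
    eval (0 : Fin M → ℂ) f = 0 := by
  rw [eval_zero, constantCoeff_eq]
  exact h 0 fun i j _ => Or.inl rfl

/-- The rank count. -/
theorem count_extra {P : Fin (N + 1) → MvPolynomial (Fin n) ℂ} {d a : ℕ} {ζ : Fin n → ℂ}
    {ξ : Fin (M + 1) → Fin n → ℂ} (hP : ∀ c, (P c).totalDegree ≤ d)
    (hform : ∀ z w : Fin n → ℂ, ∑ k, z k * starRingEnd ℂ (w k) = 1 →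
      form (fun c => eval z (P c)) (fun c => eval w (P c)) = 0) (hf : IsFrame ζ ξ)
    {D : R2 n} (hD : eval (Sum.elim ζ (ξ 0)) D ≠ 0)
    (hge : ∀ w, eval (Sum.elim ζ w) D ≠ 0 → a + 1 ≤ Module.finrank ℂ (Sp P d ζ w))
    {q : ℕ} (v : Fin q → Fin (N + 1) → ℂ)
    (hv : ∀ b : Fin q → ℂ, form (∑ j, b j • v j) (fun c => eval ζ (P c)) = 0 →
      (∀ i : Fin M, ∀ w ∈ Sp P d ζ (ξ i.succ), form (∑ j, b j • v j) w = 0) → b = 0)
    (E : Finset (Fin M →₀ ℕ))
    (hE : ∀ η ∈ E, ∃ c ν α, (c, ν) ∈ Tset P d ζ ξ 0 ∧ ∑ i, α i ≤ c ∧ ¬ Pure α ∧ η = ν + α) :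
    q + E.card + (a + 1) ≤ N + 1 := by
  classical
  have hE' : ∀ η ∈ E, ∃ w : Fin (N + 1) → Rx M, coeff η ((Ph P ζ ξ w).coeff 0) ≠ 0 ∧
      (∀ ν', toLex ν' < toLex η → coeff ν' ((Ph P ζ ξ w).coeff 0) = 0) ∧
      (∀ η', Pure η' → coeff η' ((Ph P ζ ξ w).coeff 0) = 0) := by
    intro η hη
    obtain ⟨c, ν, α, h1, h2, h3, rfl⟩ := hE η hη
    exact exists_mixed h1 h2 h3
  choose! w hw1 hw2 hw3 using hE'
  -- independence on the axes at `x = 0`
  have hli0 : LinearIndependent ℂ (fun (j : Fin q) (η : {η : Fin M →₀ ℕ // Pure η}) =>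
      eval (0 : Fin (M + 1) → ℂ) (coeff (η : Fin M →₀ ℕ)
        ((Ph P ζ ξ (fun c => C (v j c))).coeff 0))) := by
    rw [Fintype.linearIndependent_iff]
    intro b hb
    have hLb : ∀ η : Fin M →₀ ℕ, Lc P ζ ξ 0 (∑ j, b j • v j) (pos (0, η))
        = ∑ j, b j * eval (0 : Fin (M + 1) → ℂ) (coeff η
          ((Ph P ζ ξ (fun c => C (v j c))).coeff 0)) := by
      intro η
      rw [map_sum, Finset.sum_apply]
      refine Finset.sum_congr rfl fun j _ => ?_
      rw [map_smul, Pi.smul_apply, smul_eq_mul, Lc_apply]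
      rfl
    have hpure : ∀ η, Pure η → coeff η
        ((evx 0 (Ph P ζ ξ (fun c => C ((∑ j, b j • v j) c)))).coeff 0) = 0 := by
      intro η hη
      rw [coeff_evx]
      have h1 := hLb η
      rw [Lc_apply] at h1
      have h2 := congrFun hb ⟨η, hη⟩
      rw [Finset.sum_apply, Pi.zero_apply] at h2
      have h3 : cf (Ph P ζ ξ (fun c => C ((∑ j, b j • v j) c))) (pos (0, η))
          = coeff η ((Ph P ζ ξ (fun c => C ((∑ j, b j • v j) c))).coeff 0) := rfl
      rw [h3] at h1
      rw [h1, ← h2]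
      exact Finset.sum_congr rfl fun j _ => by rw [Pi.smul_apply, smul_eq_mul]
    have hev : ∀ t : Fin M → ℂ, form (∑ j, b j • v j) (fun c => eval (Wp ζ ξ 0 0 t) (P c))
        = eval t ((evx 0 (Ph P ζ ξ (fun c => C ((∑ j, b j • v j) c)))).coeff 0) := by
      intro t
      have h1 := evt_Ph P ζ ξ (fun c => C ((∑ j, b j • v j) c)) 0 0 t
      simp only [eval_C] at h1
      rw [← h1]
      change Polynomial.eval 0 (Polynomial.map (eval t) (evx 0 _)) = _
      rw [← Polynomial.coeff_zero_eq_eval_zero, Polynomial.coeff_map]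
    suffices hb0 : b = 0 from fun j => congrFun hb0 j
    apply hv
    · have h1 := hev 0
      rw [eval_origin hpure] at h1
      have h2 : Wp ζ ξ 0 0 (0 : Fin M → ℂ) = ζ := by
        funext k
        simp [Wp]
      rwa [h2] at h1
    · intro l w hw
      refine Sp_perp' hP (fun s => ?_) w hw
      have h1 := hev (Pi.single l (starRingEnd ℂ s))
      rw [eval_axis hpure] at h1
      have h2 : Wp ζ ξ 0 0 (Pi.single l (starRingEnd ℂ s) : Fin M → ℂ)
          = fun k => ζ k + s * ξ l.succ k := by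
        funext k
        have h3 : ∑ i : Fin M, ξ i.succ k * starRingEnd ℂ
            ((Pi.single l (starRingEnd ℂ s) : Fin M → ℂ) i) = s * ξ l.succ k := by
          rw [Finset.sum_eq_single l]
          · rw [Pi.single_eq_same, Complex.conj_conj, mul_comm]
          · intro i _ hi
            rw [Pi.single_eq_of_ne hi, map_zero, mul_zero]
          · simp
        unfold Wp
        rw [h3]
        simp
      rwa [h2] at h1
  obtain ⟨Dax, hDax0, hDax⟩ := Helper35.BallT.spec (fun (j : Fin q)
    (η : {η : Fin M →₀ ℕ // Pure η}) => coeff (η : Fin M →₀ ℕ)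
        ((Ph P ζ ξ (fun c => C (v j c))).coeff 0)) 0 hli0
  -- a general point
  have hDax1 : Dax ≠ 0 := by
    rintro rfl
    exact hDax0 (map_zero _)
  have hsub : sub ζ ξ D ≠ 0 := by
    intro h
    apply hD
    have h1 := eval_sub ζ ξ 0 D
    rw [h, map_zero, Lx_zero] at h1
    exact h1.symm
  obtain ⟨x, hx⟩ := exists_eval_ne (insert none (insert (some none) (E.image fun η => some (some η))))
    (fun o : Option (Option (Fin M →₀ ℕ)) => match o with
      | none => Dax
      | some none => sub ζ ξ D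
      | some (some η) => coeff η ((Ph P ζ ξ (w η)).coeff 0)) (by
    intro o ho
    rcases o with _ | _ | η
    · exact hDax1
    · exact hsub
    · have : η ∈ E := by simpa using ho
      exact hw1 η this)
  have hx1 : eval x Dax ≠ 0 := hx none (by simp)
  have hx2 : eval x (sub ζ ξ D) ≠ 0 := hx (some none) (by simp)
  have hx3 : ∀ η ∈ E, eval x (coeff η ((Ph P ζ ξ (w η)).coeff 0)) ≠ 0 := fun η hη =>
    hx (some (some η)) (by simp [hη])
  clear hx
  -- the linear map
  set R : (Fin (N + 1) → ℂ) →ₗ[ℂ] (Lex (Fin M →₀ ℕ) → ℂ) :=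
    { toFun := fun u η => Lc P ζ ξ x u (pos (0, ofLex η))
      map_add' := fun u u' => by
        funext η
        rw [map_add, Pi.add_apply, Pi.add_apply]
      map_smul' := fun b u => by
        funext η
        rw [map_smul, Pi.smul_apply, RingHom.id_apply, Pi.smul_apply] } with hR
  have hRa : ∀ u η, R u η = Lc P ζ ξ x u (pos (0, ofLex η)) := fun u η => rfl
  have hRv : ∀ j η, R (v j) η = eval x (coeff (ofLex η) ((Ph P ζ ξ (fun c => C (v j c))).coeff 0)) :=
    fun j η => rfl
  have hRw : ∀ η η', R (fun c => eval x (w η c)) η'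
      = eval x (coeff (ofLex η') ((Ph P ζ ξ (w η)).coeff 0)) := by
    intro η η'
    rw [hRa, Lc_eval]
    rfl
  have hker : Sp P d ζ (Lx ζ ξ x) ≤ LinearMap.ker R := by
    intro u hu
    rw [LinearMap.mem_ker]
    funext η
    rw [hRa, Lc_apply]
    have h1 : (evx x (Ph P ζ ξ (fun c => C (u c)))).coeff 0 = 0 := by
      apply coeff_zero_of_evt
      intro t
      rw [evt_Ph]
      simp only [eval_C]
      exact Sp_form_zero hP hform hf x t hu
    have h2 := coeff_evx x (Ph P ζ ξ (fun c => C (u c))) 0 (ofLex η)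
    rw [h1, coeff_zero] at h2
    exact h2.symm
  have hkd : a + 1 ≤ Module.finrank ℂ (LinearMap.ker R) := by
    have h1 := hge (Lx ζ ξ x) (by rw [← eval_sub]; exact hx2)
    exact h1.trans (Submodule.finrank_mono hker)
  have hrange : q + E.card ≤ Module.finrank ℂ (LinearMap.range R) := by
    set fam : Fin q ⊕ E → LinearMap.range R := Sum.elim (fun j => ⟨R (v j), ⟨_, rfl⟩⟩)
      (fun η => ⟨R (fun c => eval x (w η c)), ⟨_, rfl⟩⟩) with hfam
    have hli : LinearIndependent ℂ fam := by
      rw [Fintype.linearIndependent_iff]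
      intro b hb
      have hb' : ∑ j, b (Sum.inl j) • R (v j)
          + ∑ η : E, b (Sum.inr η) • R (fun c => eval x (w η c)) = 0 := by
        have h1 := congrArg Subtype.val hb
        rw [Fintype.sum_sum_type] at h1
        simpa [hfam] using h1
      have hb1 : ∀ j, b (Sum.inl j) = 0 := by
        have h1 := Fintype.linearIndependent_iff.1 (hDax x hx1) (fun j => b (Sum.inl j)) (by
          funext η
          have h2 := congrFun hb' (toLex (η : Fin M →₀ ℕ))
          rw [Pi.add_apply, Finset.sum_apply, Finset.sum_apply, Pi.zero_apply] at h2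
          have h3 : ∑ η' : E, (b (Sum.inr η') • R (fun c => eval x (w η' c)))
              (toLex (η : Fin M →₀ ℕ)) = 0 := by
            refine Finset.sum_eq_zero fun η' _ => ?_
            rw [Pi.smul_apply, hRw, ofLex_toLex, hw3 η' η'.2 η η.2, map_zero, smul_zero]
          rw [h3, add_zero] at h2
          rw [Finset.sum_apply, Pi.zero_apply, ← h2]
          rfl)
        exact h1
      have hb2 : ∀ η : E, b (Sum.inr η) = 0 := by
        have h1 : LinearIndependent ℂ (fun η : E => R (fun c => eval x (w η c))) := by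
          apply li_of_lead _ (fun η : E => toLex (η : Fin M →₀ ℕ))
          · intro η η' h
            exact Subtype.ext (toLex_inj.1 h)
          · intro η
            rw [hRw]
            exact hx3 η η.2
          · intro η η' hlt
            rw [hRw]
            have h4 := hw2 η η.2 (ofLex η') hlt
            rw [h4, map_zero]
        refine Fintype.linearIndependent_iff.1 h1 _ ?_
        rw [← hb']
        simp only [hb1, zero_smul, Finset.sum_const_zero, zero_add]
      intro i
      rcases i with j | η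
      · exact hb1 j
      · exact hb2 η
    have h1 := hli.fintype_card_le_finrank
    rwa [Fintype.card_sum, Fintype.card_fin, Fintype.card_coe] at h1
  have h1 := LinearMap.finrank_range_add_finrank_ker R
  rw [Module.finrank_fin_fun] at h1
  omega

end Helper35.BallT
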