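import Mathlib

/-!
Coefficientwise derivations, and leading exponents of polynomials in `t_0` (outer variable) and
`t_1, ..., t_M`.
-/

namespace Helper35.BallT

open MvPolynomial

section Deriv

variable {σ R : Type*} [CommRing R] [Algebra ℂ R]

/-- The coefficientwise action of a derivation on multivariate polynomials. -/
noncomputable def mvF (δ : Derivation ℂ R R) (f : MvPolynomial σ R) : MvPolynomial σ R :=
  ∑ ν ∈ f.support, monomial ν (δ (coeff ν f))

lemma coeff_mvF (δ : Derivation ℂ R R) (f : MvPolynomial σ R) (ν : σ →₀ ℕ) :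
    coeff ν (mvF δ f) = δ (coeff ν f) := by
  classical
  unfold mvF
  rw [coeff_sum]
  simp only [coeff_monomial]
  rw [Finset.sum_ite_eq']
  split_ifs with h
  · rfl
  · rw [notMem_support_iff.1 h, map_zero]

/-- The coefficientwise derivation on multivariate polynomials. -/
noncomputable def mvD (δ : Derivation ℂ R R) :
    Derivation ℂ (MvPolynomial σ R) (MvPolynomial σ R) :=
  Derivation.mk'
    { toFun := mvF δ
      map_add' := fun f g => by
        ext ν
        simp only [coeff_mvF, coeff_add, map_add]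
      map_smul' := fun a f => by
        ext ν
        simp only [coeff_mvF, coeff_smul, Derivation.map_smul, RingHom.id_apply] }
    (fun f g => by
      classical
      ext ν
      simp only [LinearMap.coe_mk, AddHom.coe_mk, smul_eq_mul, coeff_add]
      rw [mul_comm g, coeff_mvF, coeff_mul, coeff_mul, coeff_mul, map_sum,
        ← Finset.sum_add_distrib]
      refine Finset.sum_congr rfl fun ab _ => ?_
      rw [Derivation.leibniz, coeff_mvF, coeff_mvF, smul_eq_mul, smul_eq_mul]
      ring)

lemma coeff_mvD (δ : Derivation ℂ R R) (f : MvPolynomial σ R) (ν : σ →₀ ℕ) :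
    coeff ν (mvD δ f) = δ (coeff ν f) := coeff_mvF δ f ν

lemma mvD_C (δ : Derivation ℂ R R) (a : R) :
    mvD δ (C a : MvPolynomial σ R) = C (δ a) := by
  classical
  ext ν
  rw [coeff_mvD, coeff_C, coeff_C]
  split_ifs
  · rfl
  · exact map_zero δ

lemma mvD_X (δ : Derivation ℂ R R) (i : σ) : mvD δ (X i : MvPolynomial σ R) = 0 := by
  classical
  ext ν
  rw [coeff_mvD, coeff_X, coeff_zero]
  split_ifs
  · exact δ.map_one_eq_zero
  · exact map_zero δ

/-- The coefficientwise action of a derivation on univariate polynomials. -/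
noncomputable def pF (δ : Derivation ℂ R R) (F : Polynomial R) : Polynomial R :=
  ∑ j ∈ F.support, Polynomial.monomial j (δ (F.coeff j))

lemma coeff_pF (δ : Derivation ℂ R R) (F : Polynomial R) (j : ℕ) :
    (pF δ F).coeff j = δ (F.coeff j) := by
  classical
  unfold pF
  rw [Polynomial.finsetSum_coeff]
  simp only [Polynomial.coeff_monomial]
  rw [Finset.sum_ite_eq']
  split_ifs with h
  · rfl
  · rw [Polynomial.notMem_support_iff.1 h, map_zero]

/-- The coefficientwise derivation on univariate polynomials. -/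
noncomputable def pD (δ : Derivation ℂ R R) : Derivation ℂ (Polynomial R) (Polynomial R) :=
  Derivation.mk'
    { toFun := pF δ
      map_add' := fun f g => by
        ext ν
        simp only [coeff_pF, Polynomial.coeff_add, map_add]
      map_smul' := fun a f => by
        ext ν
        simp only [coeff_pF, Polynomial.coeff_smul, Derivation.map_smul, RingHom.id_apply] }
    (fun f g => by
      classical
      ext ν
      simp only [LinearMap.coe_mk, AddHom.coe_mk, smul_eq_mul, Polynomial.coeff_add]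
      rw [mul_comm g, coeff_pF, Polynomial.coeff_mul, Polynomial.coeff_mul, Polynomial.coeff_mul,
        map_sum, ← Finset.sum_add_distrib]
      refine Finset.sum_congr rfl fun ab _ => ?_
      rw [Derivation.leibniz, coeff_pF, coeff_pF, smul_eq_mul, smul_eq_mul]
      ring)

lemma coeff_pD (δ : Derivation ℂ R R) (F : Polynomial R) (j : ℕ) :
    (pD δ F).coeff j = δ (F.coeff j) := coeff_pF δ F j

end Deriv

/-! ### Leading exponents -/

section Lead

variable {M : ℕ} {R : Type*} [CommRing R]

/-- `T_0 = 1`, `T_(i+1) = t_(i+1)`. -/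
noncomputable def TT (i : Fin (M + 1)) : MvPolynomial (Fin M) R :=
  Fin.cases 1 (fun i => X i) i

/-- The exponent of `T_i`. -/
noncomputable def ep (i : Fin (M + 1)) : Fin M →₀ ℕ :=
  Fin.cases 0 (fun i => Finsupp.single i 1) i

@[simp] lemma TT_zero : (TT 0 : MvPolynomial (Fin M) R) = 1 := rfl

@[simp] lemma TT_succ (i : Fin M) : (TT i.succ : MvPolynomial (Fin M) R) = X i := rfl

@[simp] lemma ep_zero : (ep 0 : Fin M →₀ ℕ) = 0 := rfl

@[simp] lemma ep_succ (i : Fin M) : (ep i.succ : Fin M →₀ ℕ) = Finsupp.single i 1 := rfl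

lemma TT_eq (i : Fin (M + 1)) : (TT i : MvPolynomial (Fin M) R) = monomial (ep i) 1 := by
  refine Fin.cases ?_ (fun i => ?_) i
  · rfl
  · rfl

/-- `(c, ν)` is the leading exponent of `F`: the order in `t_0` is `c`, and `ν` is the smallest
exponent of the coefficient of `t_0 ^ c`. -/
def Lead (F : Polynomial (MvPolynomial (Fin M) R)) (c : ℕ) (ν : Fin M →₀ ℕ) : Prop :=
  (∀ j < c, F.coeff j = 0) ∧ coeff ν (F.coeff c) ≠ 0 ∧
    ∀ ν', toLex ν' < toLex ν → coeff ν' (F.coeff c) = 0

lemma exists_min {f : MvPolynomial (Fin M) R} (hf : f ≠ 0) :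
    ∃ ν, coeff ν f ≠ 0 ∧ ∀ ν', toLex ν' < toLex ν → coeff ν' f = 0 := by
  obtain ⟨ν, hν, hmin⟩ := Finset.exists_min_image f.support (fun ν => toLex ν)
    (Finset.nonempty_iff_ne_empty.2 (by rwa [Ne, support_eq_empty]))
  refine ⟨ν, mem_support_iff.1 hν, fun ν' h => ?_⟩
  by_contra h0
  exact absurd (hmin ν' (mem_support_iff.2 h0)) (not_le.2 h)

lemma exists_lead {F : Polynomial (MvPolynomial (Fin M) R)} (hF : F ≠ 0) : ∃ c ν, Lead F c ν := by
  have h1 : F.coeff F.natTrailingDegree ≠ 0 := by
    rw [← Polynomial.trailingCoeff]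
    rwa [Ne, Polynomial.trailingCoeff_eq_zero]
  obtain ⟨ν, h2, h3⟩ := exists_min h1
  exact ⟨F.natTrailingDegree, ν, fun j hj => Polynomial.coeff_eq_zero_of_lt_natTrailingDegree hj,
    h2, h3⟩

lemma coeff_TT_mul (i : Fin (M + 1)) (f : MvPolynomial (Fin M) R) (ν : Fin M →₀ ℕ) :
    coeff (ν + ep i) (TT i * f) = coeff ν f := by
  rw [TT_eq, add_comm, coeff_monomial_mul, one_mul]

lemma coeff_TT_mul_lt (i : Fin (M + 1)) {f : MvPolynomial (Fin M) R} {ν : Fin M →₀ ℕ}
    (h : ∀ ν', toLex ν' < toLex ν → coeff ν' f = 0) :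
    ∀ ν', toLex ν' < toLex (ν + ep i) → coeff ν' (TT i * f) = 0 := by
  intro ν' hν'
  rw [TT_eq, coeff_monomial_mul']
  split_ifs with hle
  · rw [one_mul]
    apply h
    obtain ⟨κ, rfl⟩ := exists_add_of_le hle
    rw [add_tsub_cancel_left]
    rw [toLex_add, toLex_add, add_comm] at hν'
    exact lt_of_add_lt_add_right hν'
  · rfl

end Lead

/-- The ring of polynomials in `x`. -/
abbrev Rx (M : ℕ) := MvPolynomial (Fin (M + 1)) ℂ

/-- The ring of polynomials in `t` with coefficients polynomials in `x`; the outer variable is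
`t_0`. -/
abbrev St (M : ℕ) := Polynomial (MvPolynomial (Fin M) (Rx M))

/-- The derivations `∂/∂x_i + t_i ∂/∂t_0` (`t_0` replaced by `1` for `i = 0`). -/
noncomputable def DD {M : ℕ} (i : Fin (M + 1)) : Derivation ℂ (St M) (St M) :=
  pD (mvD (pderiv i)) +
    (Polynomial.C (TT i) : St M) • ((Polynomial.derivative' :
      Derivation (MvPolynomial (Fin M) (Rx M)) (St M) (St M)).restrictScalars ℂ)

lemma coeff_DD {M : ℕ} (i : Fin (M + 1)) (F : St M) (j : ℕ) :
    (DD i F).coeff j = mvD (pderiv i) (F.coeff j) +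
      TT i * (F.coeff (j + 1) * ((j : MvPolynomial (Fin M) (Rx M)) + 1)) := by
  unfold DD
  rw [Derivation.add_apply, Polynomial.coeff_add, coeff_pD, Derivation.smul_apply, smul_eq_mul,
    Polynomial.coeff_C_mul]
  congr 2
  exact Polynomial.coeff_derivative F j

lemma lead_DD {M : ℕ} (i : Fin (M + 1)) {F : St M} {c : ℕ} {ν : Fin M →₀ ℕ}
    (h : Lead F (c + 1) ν) : Lead (DD i F) c (ν + ep i) := by
  obtain ⟨h1, h2, h3⟩ := h
  have e : (DD i F).coeff c = TT i * (C (((c : ℕ) : Rx M) + 1) * F.coeff (c + 1)) := by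
    rw [coeff_DD, h1 c (Nat.lt_succ_self c), map_zero, zero_add]
    congr 1
    rw [mul_comm, map_add, map_natCast, map_one]
  have hc : (((c : ℕ) : Rx M) + 1) ≠ 0 := by
    exact_mod_cast Nat.succ_ne_zero c
  refine ⟨fun j hj => ?_, ?_, ?_⟩
  · rw [coeff_DD, h1 j (by omega), h1 (j + 1) (by omega), map_zero, zero_add, zero_mul, mul_zero]
  · rw [e, coeff_TT_mul, coeff_C_mul]
    exact mul_ne_zero hc h2
  · rw [e]
    apply coeff_TT_mul_lt
    intro ν' hν'
    rw [coeff_C_mul, h3 ν' hν', mul_zero]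

end Helper35.BallT
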