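import Mathlib

/-!
Linear independence and specialisation of polynomial vectors.
-/

namespace Helper35.BallT

open MvPolynomial

/-- Selection of coordinates. -/
lemma exists_coords {ε : Type*} {q : ℕ} {g : Fin q → ε → ℂ} (h : LinearIndependent ℂ g) :
    ∃ e : Fin q → ε, (Matrix.of fun i j => g j (e i)).det ≠ 0 := by
  classical
  set row : ε → Fin q → ℂ := fun e j => g j e with hrow
  have htop : Submodule.span ℂ (Set.range row) = ⊤ := by
    by_contra hne
    obtain ⟨f, hf0, hf⟩ := Submodule.exists_le_ker_of_lt_top _ (lt_top_iff_ne_top.2 hne)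
    apply hf0
    have h1 : ∀ v : Fin q → ℂ, f v = ∑ j, v j * f (Pi.single j 1) := by
      intro v
      conv_lhs => rw [← Finset.univ_sum_single v]
      rw [map_sum]
      refine Finset.sum_congr rfl fun j _ => ?_
      have : (Pi.single j (v j) : Fin q → ℂ) = v j • Pi.single j 1 := by
        rw [← Pi.single_smul, smul_eq_mul, mul_one]
      rw [this, map_smul, smul_eq_mul]
    have h2 : ∑ j, f (Pi.single j 1) • g j = 0 := by
      funext e
      have h3 : f (row e) = 0 := hf (Submodule.subset_span ⟨e, rfl⟩)
      rw [h1] at h3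
      rw [Finset.sum_apply, Pi.zero_apply, ← h3]
      exact Finset.sum_congr rfl fun j _ => by rw [Pi.smul_apply, smul_eq_mul, mul_comm]
    have h4 := Fintype.linearIndependent_iff.1 h _ h2
    ext v
    simp [h4]
  obtain ⟨κ, a, -, hspan, hli⟩ := exists_linearIndependent' ℂ row
  have hfin : Finite κ := hli.finite
  have : Fintype κ := Fintype.ofFinite κ
  have hcard : Fintype.card κ = q := by
    have h5 := finrank_span_eq_card hli
    rw [hspan, htop, finrank_top, Module.finrank_fin_fun] at h5
    exact h5.symm
  let eκ : Fin q ≃ κ := (Fintype.equivFinOfCardEq hcard).symm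
  refine ⟨fun i => a (eκ i), ?_⟩
  have hli2 : LinearIndependent ℂ (fun i => row (a (eκ i))) := hli.comp eκ eκ.injective
  have h6 : IsUnit (Matrix.of fun i j => g j (a (eκ i))) :=
    Matrix.linearIndependent_rows_iff_isUnit.1 hli2
  exact ((Matrix.isUnit_iff_isUnit_det _).1 h6).ne_zero

/-- Linear independence at one point implies linear independence at a general point. -/
theorem spec {σ ε : Type*} {q : ℕ} (f : Fin q → ε → MvPolynomial σ ℂ) (x0 : σ → ℂ)
    (h : LinearIndependent ℂ (fun j e => eval x0 (f j e))) :
    ∃ D : MvPolynomial σ ℂ, eval x0 D ≠ 0 ∧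
      ∀ x, eval x D ≠ 0 → LinearIndependent ℂ (fun j e => eval x (f j e)) := by
  classical
  obtain ⟨e, he⟩ := exists_coords h
  have hmap : ∀ x, eval x (Matrix.of fun i j => f j (e i)).det
      = (Matrix.of fun i j => eval x (f j (e i))).det := by
    intro x
    rw [RingHom.map_det]
    rfl
  refine ⟨(Matrix.of fun i j => f j (e i)).det, ?_, fun x hx => ?_⟩
  · rw [hmap]
    exact he
  · rw [hmap] at hx
    rw [Fintype.linearIndependent_iff]
    intro b hb
    have h1 : (Matrix.of fun i j => eval x (f j (e i))).mulVec b = 0 := by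
      funext i
      have h2 := congrFun hb (e i)
      rw [Finset.sum_apply, Pi.zero_apply] at h2
      rw [Matrix.mulVec, dotProduct, Pi.zero_apply, ← h2]
      exact Finset.sum_congr rfl fun j _ => by
        rw [Matrix.of_apply, Pi.smul_apply, smul_eq_mul, mul_comm]
    exact fun j => congrFun (Matrix.eq_zero_of_mulVec_eq_zero hx h1) j

/-- Linear independence at one point implies linear independence over the polynomials. -/
theorem spec_domain {σ ε : Type*} {q : ℕ} (f : Fin q → ε → MvPolynomial σ ℂ) (x0 : σ → ℂ)
    (h : LinearIndependent ℂ (fun j e => eval x0 (f j e))) (a : Fin q → MvPolynomial σ ℂ)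
    (ha : ∀ e, ∑ j, a j * f j e = 0) : a = 0 := by
  obtain ⟨D, hD, hli⟩ := spec f x0 h
  by_contra hne
  obtain ⟨j, hj⟩ := Function.ne_iff.1 hne
  have hD0 : D ≠ 0 := by
    rintro rfl
    exact hD (map_zero _)
  obtain ⟨x, hx⟩ : ∃ x, eval x (D * a j) ≠ 0 := by
    by_contra hcon
    push Not at hcon
    exact mul_ne_zero hD0 hj (MvPolynomial.funext fun v => by rw [hcon v, map_zero])
  rw [map_mul] at hx
  have h1 := Fintype.linearIndependent_iff.1 (hli x (left_ne_zero_of_mul hx))
    (fun j => eval x (a j)) (by
      funext e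
      rw [Finset.sum_apply, Pi.zero_apply, ← map_zero (eval x), ← ha e, map_sum]
      exact Finset.sum_congr rfl fun j _ => by
        rw [Pi.smul_apply, smul_eq_mul, map_mul])
  exact right_ne_zero_of_mul hx (h1 j)

end Helper35.BallT
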