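import Pool.Agent.Helper38.D.Bound
import Pool.Agent.Helper35.BallK.Deriv
import Pool.Agent.Helper35.BallT.Lead
import Pool.Agent.Helper35.BallT.Spec

/-!
The slice `ξ(x) = ξ_0 + x_0 ζ + ∑ x_i ξ_i`, the pairing with `P(ω)` in the coordinates `t`, and the
modules of sections.
-/

namespace Helper35.BallT

open MvPolynomial Helper38.BallD Helper35.BallK

variable {n N M : ℕ}

/-- The directions of the slice. -/
def dir (ζ : Fin n → ℂ) (ξ : Fin (M + 1) → Fin n → ℂ) (i : Fin (M + 1)) : Fin n → ℂ :=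
  Fin.cases ζ (fun i => ξ i.succ) i

/-- The points of the slice. -/
noncomputable def Lx (ζ : Fin n → ℂ) (ξ : Fin (M + 1) → Fin n → ℂ) (x : Fin (M + 1) → ℂ) :
    Fin n → ℂ := fun k => ξ 0 k + ∑ i, dir ζ ξ i k * x i

/-- Restriction of polynomials in `(z, ξ)` to the slice. -/
noncomputable def sub (ζ : Fin n → ℂ) (ξ : Fin (M + 1) → Fin n → ℂ) : R2 n →ₐ[ℂ] Rx M :=
  aeval (Sum.elim (fun k => C (ζ k)) (fun k => C (ξ 0 k) + ∑ i, C (dir ζ ξ i k) * X i))

lemma eval_sub (ζ : Fin n → ℂ) (ξ : Fin (M + 1) → Fin n → ℂ) (x : Fin (M + 1) → ℂ) (g : R2 n) :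
    eval x (sub ζ ξ g) = eval (Sum.elim ζ (Lx ζ ξ x)) g := by
  have h : (eval x).comp (sub ζ ξ).toRingHom = eval (Sum.elim ζ (Lx ζ ξ x)) := by
    apply ringHom_ext
    · intro a
      simp [sub]
    · intro i
      rcases i with i | i <;> simp [sub, Lx]
  exact congrArg (fun F => F g) h

lemma pderiv_sub (ζ : Fin n → ℂ) (ξ : Fin (M + 1) → Fin n → ℂ) (i : Fin (M + 1)) (g : R2 n) :
    pderiv i (sub ζ ξ g) = sub ζ ξ (Dξ (dir ζ ξ i) g) := by
  induction g using MvPolynomial.induction_on with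
  | C a => simp [sub, Dξ]
  | add p q hp hq => rw [map_add, map_add, hp, hq, Dξ_add, map_add]
  | mul_X p j hp =>
    rw [map_mul, pderiv_mul, hp, Dξ_mul, map_add, map_mul, map_mul]
    congr 2
    rcases j with j | j
    · simp [sub, Dξ]
    · have h1 : sub ζ ξ (X (Sum.inr j)) = C (ξ 0 j) + ∑ l, C (dir ζ ξ l j) * X l := by
        simp [sub]
      have h2 : Dξ (dir ζ ξ i) (X (Sum.inr j) : R2 n) = C (dir ζ ξ i j) := by
        classical
        unfold Dξ
        rw [Finset.sum_eq_single j]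
        · rw [pderiv_X_self, mul_one]
        · intro l _ hl
          rw [pderiv_X_of_ne (by simpa using Ne.symm hl), mul_zero]
        · simp
      rw [h1, h2, map_add, pderiv_C, zero_add, map_sum, Finset.sum_eq_single i]
      · rw [pderiv_C_mul, pderiv_X_self, mul_one]
        simp [sub]
      · intro l _ hl
        rw [pderiv_C_mul, pderiv_X_of_ne hl, mul_zero]
      · simp

lemma sub_G_zero (P : MvPolynomial (Fin n) ℂ) (ζ : Fin n → ℂ) (ξ : Fin (M + 1) → Fin n → ℂ) :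
    sub ζ ξ (G 0 P) = C (eval ζ P) := by
  apply MvPolynomial.funext
  intro x
  rw [eval_sub, eval_C]
  exact eval_G_zero P ζ _

/-- `∑ x_i T_i`. -/
noncomputable def tl (M : ℕ) : MvPolynomial (Fin M) (Rx M) :=
  ∑ i : Fin (M + 1), C (X i : Rx M) * TT i

/-- The coordinates of the point `ω`. -/
noncomputable def om (ζ : Fin n → ℂ) (ξ : Fin (M + 1) → Fin n → ℂ) (k : Fin n) : St M :=
  Polynomial.C (C (C (starRingEnd ℂ (ζ k)))) +
    Polynomial.C (C (C (starRingEnd ℂ (ξ 0 k)))) * (Polynomial.X - Polynomial.C (tl M)) +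
    Polynomial.C (∑ i : Fin M, C (C (starRingEnd ℂ (ξ i.succ k))) * X i)

lemma DD_C (i : Fin (M + 1)) (a : MvPolynomial (Fin M) (Rx M)) :
    DD i (Polynomial.C a) = Polynomial.C (mvD (pderiv i) a) := by
  ext1 j
  rw [coeff_DD, Polynomial.coeff_C_succ, zero_mul, mul_zero, add_zero, Polynomial.coeff_C,
    Polynomial.coeff_C]
  split_ifs
  · rfl
  · rw [map_zero]

lemma DD_X (i : Fin (M + 1)) : DD i (Polynomial.X : St M) = Polynomial.C (TT i) := by
  ext1 j
  rw [coeff_DD, Polynomial.coeff_X, Polynomial.coeff_X, Polynomial.coeff_C]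
  by_cases hj : j = 0
  · subst hj
    simp
  · have h1 : ¬ (1 = j + 1) := by omega
    rw [if_neg h1, if_neg hj, zero_mul, mul_zero, add_zero]
    split_ifs
    · exact Derivation.map_one_eq_zero _
    · exact map_zero _

lemma mvD_TT (i j : Fin (M + 1)) : mvD (pderiv i) (TT j : MvPolynomial (Fin M) (Rx M)) = 0 := by
  refine Fin.cases ?_ (fun j => ?_) j
  · exact Derivation.map_one_eq_zero _
  · exact mvD_X _ _

lemma mvD_tl (i : Fin (M + 1)) : mvD (pderiv i) (tl M) = TT i := by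
  classical
  unfold tl
  rw [map_sum, Finset.sum_eq_single i]
  · rw [Derivation.leibniz, mvD_TT, smul_zero, zero_add, mvD_C, pderiv_X_self, C_1, smul_eq_mul,
      mul_one]
  · intro j _ hj
    rw [Derivation.leibniz, mvD_TT, smul_zero, zero_add, mvD_C, pderiv_X_of_ne hj, C_0, smul_zero]
  · simp

lemma DD_const (i : Fin (M + 1)) (a : ℂ) :
    DD i (Polynomial.C (C (C a)) : St M) = 0 := by
  rw [DD_C, mvD_C, pderiv_C, C_0, Polynomial.C_0]

lemma DD_om (ζ : Fin n → ℂ) (ξ : Fin (M + 1) → Fin n → ℂ) (k : Fin n) (i : Fin (M + 1)) :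
    DD i (om ζ ξ k) = 0 := by
  unfold om
  have h0 : DD i ((Polynomial.X : St M) - Polynomial.C (tl M)) = 0 := by
    refine (map_sub (DD i) _ _).trans ?_
    rw [DD_X, DD_C, mvD_tl]
    exact sub_self _
  rw [map_add, map_add, DD_const, Derivation.leibniz, DD_const, smul_zero, add_zero,
    h0, smul_zero, zero_add, zero_add, DD_C, map_sum]
  rw [Finset.sum_eq_zero, Polynomial.C_0]
  intro j _
  rw [Derivation.leibniz, mvD_X, mvD_C, pderiv_C, C_0, smul_zero, smul_zero, add_zero]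

/-- The polynomials `\bar P_c(ω)`. -/
noncomputable def Bt (P : Fin (N + 1) → MvPolynomial (Fin n) ℂ) (ζ : Fin n → ℂ)
    (ξ : Fin (M + 1) → Fin n → ℂ) (c : Fin (N + 1)) : St M :=
  aeval (om ζ ξ) (map (starRingEnd ℂ) (P c))

lemma DD_aeval (ζ : Fin n → ℂ) (ξ : Fin (M + 1) → Fin n → ℂ) (i : Fin (M + 1))
    (p : MvPolynomial (Fin n) ℂ) : DD i (aeval (om ζ ξ) p) = 0 := by
  induction p using MvPolynomial.induction_on with
  | C a =>
    rw [aeval_C]
    exact DD_const i a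
  | add p q hp hq => rw [map_add, map_add, hp, hq, add_zero]
  | mul_X p j hp =>
    rw [map_mul, aeval_X, Derivation.leibniz, hp, DD_om, smul_zero, smul_zero, add_zero]

/-- The pairing `⟨u, P(ω)⟩`. -/
noncomputable def Ph (P : Fin (N + 1) → MvPolynomial (Fin n) ℂ) (ζ : Fin n → ℂ)
    (ξ : Fin (M + 1) → Fin n → ℂ) (u : Fin (N + 1) → Rx M) : St M :=
  ∑ c, Polynomial.C (C (C (sg N c) * u c)) * Bt P ζ ξ c

lemma DD_Ph (P : Fin (N + 1) → MvPolynomial (Fin n) ℂ) (ζ : Fin n → ℂ)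
    (ξ : Fin (M + 1) → Fin n → ℂ) (u : Fin (N + 1) → Rx M) (i : Fin (M + 1)) :
    DD i (Ph P ζ ξ u) = Ph P ζ ξ (fun c => pderiv i (u c)) := by
  unfold Ph
  rw [map_sum]
  refine Finset.sum_congr rfl fun c _ => ?_
  rw [Derivation.leibniz]
  have h1 : DD i (Bt P ζ ξ c) = 0 := DD_aeval ζ ξ i _
  rw [h1, smul_zero, zero_add, DD_C, mvD_C, pderiv_C_mul, smul_eq_mul, mul_comm]

lemma Ph_add (P : Fin (N + 1) → MvPolynomial (Fin n) ℂ) (ζ : Fin n → ℂ)
    (ξ : Fin (M + 1) → Fin n → ℂ) (u v : Fin (N + 1) → Rx M) :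
    Ph P ζ ξ (u + v) = Ph P ζ ξ u + Ph P ζ ξ v := by
  unfold Ph
  rw [← Finset.sum_add_distrib]
  refine Finset.sum_congr rfl fun c _ => ?_
  rw [Pi.add_apply, mul_add, C_add, Polynomial.C_add, add_mul]

lemma Ph_smul (P : Fin (N + 1) → MvPolynomial (Fin n) ℂ) (ζ : Fin n → ℂ)
    (ξ : Fin (M + 1) → Fin n → ℂ) (a : Rx M) (u : Fin (N + 1) → Rx M) :
    Ph P ζ ξ (a • u) = Polynomial.C (C a) * Ph P ζ ξ u := by
  unfold Ph
  rw [Finset.mul_sum]
  refine Finset.sum_congr rfl fun c _ => ?_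
  rw [Pi.smul_apply, smul_eq_mul]
  simp only [C_mul, Polynomial.C_mul]
  ring

lemma Ph_sum {κ : Type*} (s : Finset κ) (P : Fin (N + 1) → MvPolynomial (Fin n) ℂ) (ζ : Fin n → ℂ)
    (ξ : Fin (M + 1) → Fin n → ℂ) (u : κ → Fin (N + 1) → Rx M) :
    Ph P ζ ξ (∑ j ∈ s, u j) = ∑ j ∈ s, Ph P ζ ξ (u j) := by
  classical
  induction s using Finset.induction_on with
  | empty =>
    rw [Finset.sum_empty, Finset.sum_empty]
    unfold Ph
    simp
  | insert j s hj ih => rw [Finset.sum_insert hj, Finset.sum_insert hj, Ph_add, ih]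

/-! ### Numerical evaluation -/

/-- Evaluation at `x`. -/
noncomputable def evx (x : Fin (M + 1) → ℂ) : St M →+* Polynomial (MvPolynomial (Fin M) ℂ) :=
  Polynomial.mapRingHom (MvPolynomial.map (eval x))

lemma coeff_evx (x : Fin (M + 1) → ℂ) (F : St M) (j : ℕ) (ν : Fin M →₀ ℕ) :
    coeff ν ((evx x F).coeff j) = eval x (coeff ν (F.coeff j)) := by
  unfold evx
  rw [Polynomial.coe_mapRingHom, Polynomial.coeff_map, MvPolynomial.coeff_map]

/-- Evaluation at `x`, `t`. -/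
noncomputable def evt (x : Fin (M + 1) → ℂ) (s : ℂ) (t : Fin M → ℂ) : St M →+* ℂ :=
  (Polynomial.evalRingHom s).comp ((Polynomial.mapRingHom (eval t)).comp (evx x))

/-- The point `ω`. -/
noncomputable def Wp (ζ : Fin n → ℂ) (ξ : Fin (M + 1) → Fin n → ℂ) (x : Fin (M + 1) → ℂ) (s : ℂ)
    (t : Fin M → ℂ) : Fin n → ℂ := fun k =>
  ζ k + ξ 0 k * starRingEnd ℂ (s - (x 0 + ∑ i : Fin M, x i.succ * t i)) +
    ∑ i : Fin M, ξ i.succ k * starRingEnd ℂ (t i)

lemma evt_C (x : Fin (M + 1) → ℂ) (s : ℂ) (t : Fin M → ℂ) (a : MvPolynomial (Fin M) (Rx M)) :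
    evt x s t (Polynomial.C a) = eval t (MvPolynomial.map (eval x) a) := by
  simp [evt, evx]

lemma evt_X (x : Fin (M + 1) → ℂ) (s : ℂ) (t : Fin M → ℂ) :
    evt x s t (Polynomial.X : St M) = s := by
  simp [evt, evx]

lemma evt_om (ζ : Fin n → ℂ) (ξ : Fin (M + 1) → Fin n → ℂ) (x : Fin (M + 1) → ℂ) (s : ℂ)
    (t : Fin M → ℂ) (k : Fin n) :
    evt x s t (om ζ ξ k) = starRingEnd ℂ (Wp ζ ξ x s t k) := by
  unfold om Wp
  rw [map_add, map_add, map_mul, map_sub (evt x s t), evt_C, evt_C, evt_C, evt_C, evt_X]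
  have h1 : eval t (MvPolynomial.map (eval x) (tl M)) = x 0 + ∑ i : Fin M, x i.succ * t i := by
    unfold tl
    rw [map_sum, map_sum, Fin.sum_univ_succ]
    simp
  rw [h1]
  simp [map_sum]

lemma evt_Bt (P : Fin (N + 1) → MvPolynomial (Fin n) ℂ) (ζ : Fin n → ℂ)
    (ξ : Fin (M + 1) → Fin n → ℂ) (x : Fin (M + 1) → ℂ) (s : ℂ) (t : Fin M → ℂ)
    (c : Fin (N + 1)) :
    evt x s t (Bt P ζ ξ c) = starRingEnd ℂ (eval (Wp ζ ξ x s t) (P c)) := by
  unfold Bt
  have h : (evt x s t).comp (aeval (om ζ ξ) : MvPolynomial (Fin n) ℂ →ₐ[ℂ] St M).toRingHom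
      = eval (fun k => starRingEnd ℂ (Wp ζ ξ x s t k)) := by
    apply ringHom_ext
    · intro a
      change evt x s t (aeval (om ζ ξ) (C a)) = _
      rw [aeval_C, eval_C]
      change evt x s t (Polynomial.C (C (C a))) = a
      rw [evt_C, MvPolynomial.map_C, eval_C, eval_C]
    · intro k
      change evt x s t (aeval (om ζ ξ) (X k)) = _
      rw [aeval_X, eval_X, evt_om]
  have h2 : evt x s t (aeval (om ζ ξ) (map (starRingEnd ℂ) (P c)))
      = eval (fun k => starRingEnd ℂ (Wp ζ ξ x s t k)) (map (starRingEnd ℂ) (P c)) :=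
    congrArg (fun F => F (map (starRingEnd ℂ) (P c))) h
  rw [h2, eval_map]
  have h12 := eval₂_comp_left (starRingEnd ℂ) (RingHom.id ℂ) (Wp ζ ξ x s t) (P c)
  rw [RingHom.comp_id] at h12
  exact h12.symm

lemma evt_Ph (P : Fin (N + 1) → MvPolynomial (Fin n) ℂ) (ζ : Fin n → ℂ)
    (ξ : Fin (M + 1) → Fin n → ℂ) (u : Fin (N + 1) → Rx M) (x : Fin (M + 1) → ℂ) (s : ℂ)
    (t : Fin M → ℂ) :
    evt x s t (Ph P ζ ξ u)
      = form (fun c => eval x (u c)) (fun c => eval (Wp ζ ξ x s t) (P c)) := by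
  unfold Ph form
  rw [map_sum]
  refine Finset.sum_congr rfl fun c _ => ?_
  rw [map_mul, evt_C, evt_Bt, MvPolynomial.map_C, eval_C, map_mul, eval_C]

/-- A polynomial over `Rx` in `t` is zero if all its values are zero. -/
lemma St_ext {F : St M} (h : ∀ x s t, evt x s t F = 0) : F = 0 := by
  ext1 j
  rw [Polynomial.coeff_zero]
  ext1 ν
  rw [coeff_zero]
  apply MvPolynomial.funext
  intro x
  rw [map_zero, ← coeff_evx]
  have h1 : evx x F = 0 := by
    have h2 : ∀ t, Polynomial.map (eval t) (evx x F) = 0 := by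
      intro t
      apply Polynomial.funext
      intro s
      rw [Polynomial.eval_zero]
      exact h x s t
    ext1 i
    apply MvPolynomial.funext
    intro t
    rw [← Polynomial.coeff_map, h2 t, Polynomial.coeff_zero, Polynomial.coeff_zero, map_zero]
  rw [h1, Polynomial.coeff_zero, coeff_zero]

lemma coeff_zero_of_evt {F : St M} (x : Fin (M + 1) → ℂ) (h : ∀ t, evt x 0 t F = 0) :
    (evx x F).coeff 0 = 0 := by
  apply MvPolynomial.funext
  intro t
  rw [map_zero, ← Polynomial.coeff_map, Polynomial.coeff_zero_eq_eval_zero]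
  exact h t

lemma coeff_zero_of_evt' {F : St M} (h : ∀ x t, evt x 0 t F = 0) : F.coeff 0 = 0 := by
  ext1 ν
  rw [coeff_zero]
  apply MvPolynomial.funext
  intro x
  rw [map_zero, ← coeff_evx, coeff_zero_of_evt x (h x), coeff_zero]

end Helper35.BallT
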