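import Pool.Agent.Helper35.BallT.Extra
import Pool.Agent.Helper38.D.Bound
import Pool.Agent.Helper35.BallK.Bound
import Pool.Agent.Helper62.DA.NumSum

/-!
Reduction of the degree bound to the combinatorics of the exponent sets.
-/

namespace Helper35.BallT

open MvPolynomial Helper38.BallD Helper35.BallK

variable {n N M : ℕ}

/-- The exponents as functions. -/
def fnv (μ : ℕ × (Fin M →₀ ℕ)) : Fin (M + 1) → ℕ := Fin.cons μ.1 (fun i => μ.2 i)

lemma fnv_zero (μ : ℕ × (Fin M →₀ ℕ)) : fnv μ 0 = μ.1 := rfl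

lemma fnv_succ (μ : ℕ × (Fin M →₀ ℕ)) (i : Fin M) : fnv μ i.succ = μ.2 i := rfl

lemma fnv_inj : Function.Injective (fnv : ℕ × (Fin M →₀ ℕ) → Fin (M + 1) → ℕ) := by
  intro μ ν h
  refine Prod.ext (congrFun h 0) ?_
  ext i
  exact congrFun h i.succ

lemma fnv_single_zero (c : ℕ) (ν : Fin M →₀ ℕ) :
    fnv (c, ν) + Pi.single 0 1 = fnv (c + 1, ν) := by
  funext j
  refine Fin.cases ?_ (fun i => ?_) j
  · simp [fnv_zero]
  · rw [Pi.add_apply, Pi.single_eq_of_ne (Fin.succ_ne_zero i), add_zero, fnv_succ, fnv_succ]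

lemma fnv_single_succ (c : ℕ) (ν : Fin M →₀ ℕ) (i : Fin M) :
    fnv (c, ν) + Pi.single i.succ 1 = fnv (c, ν + Finsupp.single i 1) := by
  classical
  funext j
  refine Fin.cases ?_ (fun l => ?_) j
  · rw [Pi.add_apply, Pi.single_eq_of_ne (Fin.succ_ne_zero i).symm, add_zero, fnv_zero, fnv_zero]
  · rw [Pi.add_apply, fnv_succ, fnv_succ, Finsupp.add_apply, Finsupp.single_apply]
    by_cases h : i = l
    · subst h
      rw [Pi.single_eq_same, if_pos rfl]
    · rw [Pi.single_eq_of_ne (fun h' => h (Fin.succ_injective _ h').symm), if_neg h]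

variable {P : Fin (N + 1) → MvPolynomial (Fin n) ℂ} {d : ℕ} {ζ : Fin n → ℂ}
  {ξ : Fin (M + 1) → Fin n → ℂ}

/-- The chain below a leading exponent. -/
lemma Tset_desc (hP : ∀ c, (P c).totalDegree ≤ d)
    (hform : ∀ z w : Fin n → ℂ, ∑ k, z k * starRingEnd ℂ (w k) = 1 →
      form (fun c => eval z (P c)) (fun c => eval w (P c)) = 0) (hf : IsFrame ζ ξ) :
    ∀ (k c : ℕ) (ν : Fin M →₀ ℕ), (c, ν) ∈ Tset P d ζ ξ k →
      k + 1 ≤ c ∧ ∀ j ≤ k, (c - j, ν) ∈ Tset P d ζ ξ 0 := by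
  intro k
  induction k with
  | zero =>
    intro c ν h
    refine ⟨Tset_pos hP hform hf h, fun j hj => ?_⟩
    obtain rfl : j = 0 := by omega
    exact h
  | succ k ih =>
    intro c ν h
    have h1 := Tset_pos hP hform hf h
    obtain ⟨c', rfl⟩ : ∃ c', c = c' + 1 := ⟨c - 1, by omega⟩
    have h2 := Tset_shift hP h 0
    rw [ep_zero, add_zero] at h2
    obtain ⟨h3, h4⟩ := ih c' ν h2
    refine ⟨by omega, fun j hj => ?_⟩
    obtain _ | j := j
    · exact Tset_anti (Nat.zero_le _) h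
    · have h5 := h4 j (by omega)
      rwa [show c' + 1 - (j + 1) = c' - j by omega]

/-- No leading exponent survives `a` steps. -/
lemma Tset_empty (hP : ∀ c, (P c).totalDegree ≤ d)
    (hform : ∀ z w : Fin n → ℂ, ∑ k, z k * starRingEnd ℂ (w k) = 1 →
      form (fun c => eval z (P c)) (fun c => eval w (P c)) = 0) (hf : IsFrame ζ ξ)
    (he : (fun c => eval ζ (P c)) ≠ (0 : Fin (N + 1) → ℂ)) {a : ℕ}
    (ha : ∀ w, Module.finrank ℂ (Sp P d ζ w) ≤ a + 1) {k : ℕ} (hk : a ≤ k)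
    (μ : ℕ × (Fin M →₀ ℕ)) : μ ∉ Tset P d ζ ξ k := by
  classical
  rintro h
  obtain ⟨c, ν⟩ := μ
  obtain ⟨h1, h2⟩ := Tset_desc hP hform hf k c ν h
  have h3 := T0_card hP hform hf he ha ((Finset.range (k + 1)).image fun j => (c - j, ν)) (by
    intro μ hμ
    obtain ⟨j, hj, rfl⟩ := Finset.mem_image.1 hμ
    exact h2 j (by have := Finset.mem_range.1 hj; omega))
  rw [Finset.card_image_of_injOn, Finset.card_range] at h3
  · omega
  · intro i hi j hj hij
    have h4 : c - i = c - j := congrArg Prod.fst hij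
    have := Finset.mem_range.1 hi
    have := Finset.mem_range.1 hj
    omega

/-- Relations of length `k` between the polynomial vectors. -/
lemma gen_rel_k (hP : ∀ c, (P c).totalDegree ≤ d) (k : ℕ) :
    ∃ (D2 : R2 n) (rel : Fin (d + k) → Fin (d + k) → R2 n), D2 ≠ 0 ∧
      (∀ l, IsRel P d k (fun i => if h : i < d + k then rel l ⟨i, h⟩ else 0)) ∧
      ∀ (z w : Fin n → ℂ) (s : ℕ → ℂ),
        (∀ p < k, ∑ i ∈ Finset.range (d + 1), s (i + p) • vec P i z w = 0) →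
        ∀ j' : Fin (d + k), ∑ l : Fin (d + k), s l * eval (Sum.elim z w) (rel l j')
          = -(eval (Sum.elim z w) D2) * s j' := by
  classical
  obtain ⟨D2, rel, hD20, hrel, hrels⟩ := gen_rel (shfam P d k)
  refine ⟨D2, rel, hD20, ?_, ?_⟩
  · intro l q hq c
    have h4 := hrel l (⟨q, hq⟩, c)
    have h5 := shfam_sum (RingHom.id (R2 n)) hP
      (fun i => if h : i < d + k then rel l ⟨i, h⟩ else 0) ⟨q, hq⟩ c
    simp only [RingHom.id_apply, Fin.is_lt, dif_pos, Fin.eta] at h5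
    rw [h4] at h5
    exact h5.symm
  · intro z w s hs
    refine hrels (Sum.elim z w) (fun j => s j) ?_
    rintro ⟨q, c⟩
    rw [shfam_sum (eval (Sum.elim z w)) hP s q c]
    have h4 := congrFun (hs q q.2) c
    rw [Finset.sum_apply] at h4
    exact h4

/-- The reduction, at a frame. -/
theorem frame_bound (hP : ∀ c, (P c).totalDegree ≤ d)
    (hform : ∀ z w : Fin n → ℂ, ∑ k, z k * starRingEnd ℂ (w k) = 1 →
      form (fun c => eval z (P c)) (fun c => eval w (P c)) = 0) (hf : IsFrame ζ ξ)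
    (he : (fun c => eval ζ (P c)) ≠ (0 : Fin (N + 1) → ℂ)) {a : ℕ}
    (ha : ∀ w, Module.finrank ℂ (Sp P d ζ w) ≤ a + 1)
    (hnz : ∀ μ : ℂ, ∑ i ∈ Finset.range (d + 1), μ ^ i • vec P i ζ (ξ 0) ≠ 0)
    (hd0 : vec P d ζ (ξ 0) ≠ 0)
    {D2 : ℕ → R2 n} {rel : ∀ k, Fin (d + k) → Fin (d + k) → R2 n}
    (hD2 : ∀ k ≤ a + 1, eval (Sum.elim ζ (ξ 0)) (D2 k) ≠ 0)
    (hrel : ∀ k l, IsRel P d k (fun i => if h : i < d + k then rel k l ⟨i, h⟩ else 0))
    (hrels : ∀ k (z w : Fin n → ℂ) (s : ℕ → ℂ),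
        (∀ p < k, ∑ i ∈ Finset.range (d + 1), s (i + p) • vec P i z w = 0) →
        ∀ j' : Fin (d + k), ∑ l : Fin (d + k), s l * eval (Sum.elim z w) (rel k l j')
          = -(eval (Sum.elim z w) (D2 k)) * s j')
    (T : ℕ → Finset (ℕ × (Fin M →₀ ℕ))) (hT : ∀ k μ, μ ∈ T k ↔ μ ∈ Tset P d ζ ξ k) :
    d ≤ ∑ k ∈ Finset.range (a + 1), (T k).card := by
  classical
  have he0 : vec P 0 ζ (ξ 0) ≠ 0 := by rwa [vec_zero]
  have htop0 : ∀ i, d < i → vec P i ζ (ξ 0) = 0 := by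
    intro i hi
    funext c
    simp only [vec]
    rw [G_eq_zero (hP c) hi, map_zero]
    rfl
  refine numeric_sum (k0 := a + 1) (fun i => vec P i ζ (ξ 0)) he0 htop0 hnz hd0
    (fun k => (T k).card) ?_ (by omega) ?_
  · intro k hk q s hs1 hs2 hs3
    obtain ⟨u, hu1, hu2⟩ := exists_sections (hD2 k hk) (hrel k) s hs2
      (fun j j' => hrels k ζ (ξ 0) (s j) (hs1 j) j')
    exact numeric_le hP hform hf he (T k) (fun μ hμ => (hT k μ).2 hμ) s u hu1 hu2 hs3
  · rw [Finset.card_eq_zero, Finset.eq_empty_iff_forall_notMem]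
    intro μ hμ
    exact Tset_empty hP hform hf he ha (Nat.le_succ a) μ ((hT _ μ).1 hμ)

end Helper35.BallT
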