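import Pool.Agent.Helper35.BallT.Frame

/-!
The modules of sections `U_k`, and the sets `T_k` of leading exponents of the pairings.
-/

namespace Helper35.BallT

open MvPolynomial Helper38.BallD Helper35.BallK

variable {n N M : ℕ}

/-- A unitary frame `ζ, ξ_0, ..., ξ_M`. -/
structure IsFrame (ζ : Fin n → ℂ) (ξ : Fin (M + 1) → Fin n → ℂ) : Prop where
  h1 : ∑ k, ζ k * starRingEnd ℂ (ζ k) = 1
  h2 : ∀ i, ∑ k, ζ k * starRingEnd ℂ (ξ i k) = 0
  h2' : ∀ i, ∑ k, ξ i k * starRingEnd ℂ (ζ k) = 0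
  h3 : ∀ i j, ∑ k, ξ i k * starRingEnd ℂ (ξ j k) = if i = j then 1 else 0

/-- The coordinates `y`. -/
noncomputable def Yc (x : Fin (M + 1) → ℂ) (s : ℂ) (t : Fin M → ℂ) : Fin (M + 1) → ℂ :=
  Fin.cons (s - (x 0 + ∑ i : Fin M, x i.succ * t i)) t

lemma conj_Wp (ζ : Fin n → ℂ) (ξ : Fin (M + 1) → Fin n → ℂ) (x : Fin (M + 1) → ℂ) (s : ℂ)
    (t : Fin M → ℂ) (k : Fin n) : starRingEnd ℂ (Wp ζ ξ x s t k)
      = starRingEnd ℂ (ζ k) + ∑ j, starRingEnd ℂ (ξ j k) * Yc x s t j := by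
  rw [Fin.sum_univ_succ]
  simp only [Wp, Yc, Fin.cons_zero, Fin.cons_succ, map_add, map_mul, Complex.conj_conj, map_sum]
  ring

lemma pair_gen (v : Fin n → ℂ) (ζ : Fin n → ℂ) (ξ : Fin (M + 1) → Fin n → ℂ)
    (x : Fin (M + 1) → ℂ) (s : ℂ) (t : Fin M → ℂ) :
    ∑ k, v k * starRingEnd ℂ (Wp ζ ξ x s t k) = ∑ k, v k * starRingEnd ℂ (ζ k) +
      ∑ j, (∑ k, v k * starRingEnd ℂ (ξ j k)) * Yc x s t j := by
  simp only [conj_Wp, mul_add, Finset.sum_add_distrib, Finset.mul_sum, Finset.sum_mul]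
  congr 1
  rw [Finset.sum_comm]
  exact Finset.sum_congr rfl fun j _ => Finset.sum_congr rfl fun k _ => by ring

lemma pair_zeta {ζ : Fin n → ℂ} {ξ : Fin (M + 1) → Fin n → ℂ} (hf : IsFrame ζ ξ)
    (x : Fin (M + 1) → ℂ) (s : ℂ) (t : Fin M → ℂ) :
    ∑ k, ζ k * starRingEnd ℂ (Wp ζ ξ x s t k) = 1 := by
  rw [pair_gen, hf.h1]
  simp [hf.h2]

lemma pair_xi {ζ : Fin n → ℂ} {ξ : Fin (M + 1) → Fin n → ℂ} (hf : IsFrame ζ ξ)
    (x : Fin (M + 1) → ℂ) (s : ℂ) (t : Fin M → ℂ) (i : Fin (M + 1)) :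
    ∑ k, ξ i k * starRingEnd ℂ (Wp ζ ξ x s t k) = Yc x s t i := by
  rw [pair_gen, hf.h2']
  simp [hf.h3]

lemma pair_Lx {ζ : Fin n → ℂ} {ξ : Fin (M + 1) → Fin n → ℂ} (hf : IsFrame ζ ξ)
    (x : Fin (M + 1) → ℂ) (s : ℂ) (t : Fin M → ℂ) :
    ∑ k, Lx ζ ξ x k * starRingEnd ℂ (Wp ζ ξ x s t k) = s := by
  have h1 : ∀ k, Lx ζ ξ x k = ξ 0 k + (ζ k * x 0 + ∑ i : Fin M, ξ i.succ k * x i.succ) := by
    intro k
    unfold Lx
    rw [Fin.sum_univ_succ]
    rfl
  simp only [h1, add_mul, Finset.sum_add_distrib]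
  rw [pair_xi hf]
  have h2 : ∑ k, ζ k * x 0 * starRingEnd ℂ (Wp ζ ξ x s t k) = x 0 := by
    have : ∑ k, ζ k * x 0 * starRingEnd ℂ (Wp ζ ξ x s t k)
        = x 0 * ∑ k, ζ k * starRingEnd ℂ (Wp ζ ξ x s t k) := by
      rw [Finset.mul_sum]
      exact Finset.sum_congr rfl fun k _ => by ring
    rw [this, pair_zeta hf, mul_one]
  have h3 : ∑ k, (∑ i : Fin M, ξ i.succ k * x i.succ) * starRingEnd ℂ (Wp ζ ξ x s t k)
      = ∑ i : Fin M, x i.succ * t i := by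
    simp only [Finset.sum_mul]
    rw [Finset.sum_comm]
    refine Finset.sum_congr rfl fun i _ => ?_
    have : ∑ k, ξ i.succ k * x i.succ * starRingEnd ℂ (Wp ζ ξ x s t k)
        = x i.succ * ∑ k, ξ i.succ k * starRingEnd ℂ (Wp ζ ξ x s t k) := by
      rw [Finset.mul_sum]
      exact Finset.sum_congr rfl fun k _ => by ring
    rw [this, pair_xi hf]
    simp [Yc]
  rw [h2, h3]
  simp [Yc]

/-- Pairing of the points of the line with `ω`. -/
lemma pair_line {ζ : Fin n → ℂ} {ξ : Fin (M + 1) → Fin n → ℂ} (hf : IsFrame ζ ξ)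
    (x : Fin (M + 1) → ℂ) (s : ℂ) (t : Fin M → ℂ) (a : ℂ) :
    ∑ k, (ζ k + a * Lx ζ ξ x k) * starRingEnd ℂ (Wp ζ ξ x s t k) = 1 + a * s := by
  have : ∑ k, (ζ k + a * Lx ζ ξ x k) * starRingEnd ℂ (Wp ζ ξ x s t k)
      = ∑ k, ζ k * starRingEnd ℂ (Wp ζ ξ x s t k)
        + a * ∑ k, Lx ζ ξ x k * starRingEnd ℂ (Wp ζ ξ x s t k) := by
    rw [Finset.mul_sum, ← Finset.sum_add_distrib]
    exact Finset.sum_congr rfl fun k _ => by ring
  rw [this, pair_zeta hf, pair_Lx hf]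

/-- The vectors in `Sp` are orthogonal to the points `P(ω)` with `t_0 = 0`. -/
lemma Sp_form_zero {P : Fin (N + 1) → MvPolynomial (Fin n) ℂ} {d : ℕ}
    (hP : ∀ c, (P c).totalDegree ≤ d)
    (hform : ∀ z w : Fin n → ℂ, ∑ k, z k * starRingEnd ℂ (w k) = 1 →
      form (fun c => eval z (P c)) (fun c => eval w (P c)) = 0)
    {ζ : Fin n → ℂ} {ξ : Fin (M + 1) → Fin n → ℂ} (hf : IsFrame ζ ξ)
    (x : Fin (M + 1) → ℂ) (t : Fin M → ℂ) {v : Fin (N + 1) → ℂ} (hv : v ∈ Sp P d ζ (Lx ζ ξ x)) :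
    form v (fun c => eval (Wp ζ ξ x 0 t) (P c)) = 0 := by
  refine Sp_perp hP (fun s => ?_) v hv
  apply hform
  rw [pair_line hf, mul_zero, add_zero]

/-! ### Sections -/

/-- The sections: the span of `P(ζ)` and the shifts of relations of length `k`. -/
noncomputable def U (P : Fin (N + 1) → MvPolynomial (Fin n) ℂ) (d : ℕ) (ζ : Fin n → ℂ)
    (ξ : Fin (M + 1) → Fin n → ℂ) (k : ℕ) : Submodule (Rx M) (Fin (N + 1) → Rx M) :=
  Submodule.span (Rx M) (insert (fun c => C (eval ζ (P c)))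
    {u | ∃ r, IsRel P d k r ∧ u = fun c => sub ζ ξ (shiftRel P d r c)})

variable {P : Fin (N + 1) → MvPolynomial (Fin n) ℂ} {d : ℕ} {ζ : Fin n → ℂ}
  {ξ : Fin (M + 1) → Fin n → ℂ}

lemma IsRel.mono {k l : ℕ} (h : l ≤ k) {r : ℕ → R2 n} (hr : IsRel P d k r) : IsRel P d l r :=
  fun q hq => hr q (by omega)

lemma U_anti {k l : ℕ} (h : l ≤ k) : U P d ζ ξ k ≤ U P d ζ ξ l := by
  unfold U
  apply Submodule.span_mono
  rintro u (rfl | ⟨r, hr, rfl⟩)
  · exact Set.mem_insert _ _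
  · exact Set.mem_insert_of_mem _ ⟨r, IsRel.mono h hr, rfl⟩

lemma e_mem_U (k : ℕ) : (fun c => C (eval ζ (P c))) ∈ U P d ζ ξ k :=
  Submodule.subset_span (Set.mem_insert _ _)

lemma rel_mem_U {k : ℕ} {r : ℕ → R2 n} (hr : IsRel P d k r) :
    (fun c => sub ζ ξ (shiftRel P d r c)) ∈ U P d ζ ξ k :=
  Submodule.subset_span (Set.mem_insert_of_mem _ ⟨r, hr, rfl⟩)

/-- The derivatives of sections are sections. -/
lemma U_deriv (hP : ∀ c, (P c).totalDegree ≤ d) {k : ℕ} (i : Fin (M + 1))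
    {u : Fin (N + 1) → Rx M} (hu : u ∈ U P d ζ ξ (k + 1)) :
    (fun c => pderiv i (u c)) ∈ U P d ζ ξ k := by
  unfold U at hu
  induction hu using Submodule.span_induction with
  | mem u hu =>
    rcases hu with rfl | ⟨r, hr, rfl⟩
    · simp only [pderiv_C]
      exact Submodule.zero_mem _
    · have h1 : (fun c => pderiv i (sub ζ ξ (shiftRel P d r c)))
          = (-1 : Rx M) • (fun c => sub ζ ξ (shiftRel P d (drel (dir ζ ξ i) r) c))
            + (-sub ζ ξ (Dz (dir ζ ξ i) (r 0))) • (fun c => C (eval ζ (P c))) := by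
        funext c
        rw [pderiv_sub, Dξ_shiftRel hP hr, map_sub, map_neg, map_mul, sub_G_zero, Pi.add_apply,
          Pi.smul_apply, Pi.smul_apply, smul_eq_mul, smul_eq_mul]
        ring
      rw [h1]
      exact Submodule.add_mem _ (Submodule.smul_mem _ _ (rel_mem_U (drel_isRel hP hr _)))
        (Submodule.smul_mem _ _ (e_mem_U k))
  | zero =>
    simp only [Pi.zero_apply, map_zero]
    exact Submodule.zero_mem _
  | add u v _ _ hu hv =>
    have h1 : (fun c => pderiv i ((u + v) c)) = (fun c => pderiv i (u c)) + fun c => pderiv i (v c) := by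
      funext c
      rw [Pi.add_apply, map_add, Pi.add_apply]
    rw [h1]
    exact Submodule.add_mem _ hu hv
  | smul a u hmem hu =>
    have h1 : (fun c => pderiv i ((a • u) c)) = pderiv i a • u + a • fun c => pderiv i (u c) := by
      funext c
      rw [Pi.smul_apply, smul_eq_mul, pderiv_mul, Pi.add_apply, Pi.smul_apply, Pi.smul_apply,
        smul_eq_mul, smul_eq_mul]
    rw [h1]
    exact Submodule.add_mem _ (Submodule.smul_mem _ _ (U_anti (Nat.le_succ k) hmem))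
      (Submodule.smul_mem _ _ hu)

/-- The values of sections. -/
lemma U_eval (hP : ∀ c, (P c).totalDegree ≤ d) {k : ℕ} {u : Fin (N + 1) → Rx M}
    (hu : u ∈ U P d ζ ξ k) (x : Fin (M + 1) → ℂ) :
    (fun c => eval x (u c)) ∈ Sp P d ζ (Lx ζ ξ x) := by
  unfold U at hu
  induction hu using Submodule.span_induction with
  | mem u hu =>
    rcases hu with rfl | ⟨r, hr, rfl⟩
    · have h1 : (fun c => eval x ((fun c => C (eval ζ (P c)) : Fin (N + 1) → Rx M) c))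
          = vec P 0 ζ (Lx ζ ξ x) := by
        rw [vec_zero]
        funext c
        exact eval_C _
      rw [h1]
      exact vec_mem hP _ _ _
    · simp only [eval_sub]
      exact shiftRel_mem hP r _ _
  | zero =>
    simp only [Pi.zero_apply, map_zero]
    exact Submodule.zero_mem _
  | add u v _ _ hu hv =>
    have h1 : (fun c => eval x ((u + v) c)) = (fun c => eval x (u c)) + fun c => eval x (v c) := by
      funext c
      rw [Pi.add_apply, map_add, Pi.add_apply]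
    rw [h1]
    exact Submodule.add_mem _ hu hv
  | smul a u _ hu =>
    have h1 : (fun c => eval x ((a • u) c)) = eval x a • fun c => eval x (u c) := by
      funext c
      rw [Pi.smul_apply, smul_eq_mul, map_mul, Pi.smul_apply, smul_eq_mul]
    rw [h1]
    exact Submodule.smul_mem _ _ hu

/-- The coefficient of `t_0 ^ 0` of the pairing of a section vanishes. -/
lemma Ph_coeff_zero (hP : ∀ c, (P c).totalDegree ≤ d)
    (hform : ∀ z w : Fin n → ℂ, ∑ k, z k * starRingEnd ℂ (w k) = 1 →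
      form (fun c => eval z (P c)) (fun c => eval w (P c)) = 0) (hf : IsFrame ζ ξ)
    {k : ℕ} {u : Fin (N + 1) → Rx M} (hu : u ∈ U P d ζ ξ k) : (Ph P ζ ξ u).coeff 0 = 0 := by
  apply coeff_zero_of_evt'
  intro x t
  rw [evt_Ph]
  exact Sp_form_zero hP hform hf x t (U_eval hP hu x)

lemma Ph_e (hform : ∀ z w : Fin n → ℂ, ∑ k, z k * starRingEnd ℂ (w k) = 1 →
      form (fun c => eval z (P c)) (fun c => eval w (P c)) = 0) (hf : IsFrame ζ ξ) :
    Ph P ζ ξ (fun c => C (eval ζ (P c))) = 0 := by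
  apply St_ext
  intro x s t
  rw [evt_Ph]
  simp only [eval_C]
  exact hform _ _ (pair_zeta hf x s t)

/-- The set of leading exponents. -/
def Tset (P : Fin (N + 1) → MvPolynomial (Fin n) ℂ) (d : ℕ) (ζ : Fin n → ℂ)
    (ξ : Fin (M + 1) → Fin n → ℂ) (k : ℕ) : Set (ℕ × (Fin M →₀ ℕ)) :=
  {μ | ∃ u ∈ U P d ζ ξ k, Lead (Ph P ζ ξ u) μ.1 μ.2}

lemma Tset_anti {k l : ℕ} (h : l ≤ k) : Tset P d ζ ξ k ⊆ Tset P d ζ ξ l := by
  rintro μ ⟨u, hu, hl⟩
  exact ⟨u, U_anti h hu, hl⟩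

lemma Tset_pos (hP : ∀ c, (P c).totalDegree ≤ d)
    (hform : ∀ z w : Fin n → ℂ, ∑ k, z k * starRingEnd ℂ (w k) = 1 →
      form (fun c => eval z (P c)) (fun c => eval w (P c)) = 0) (hf : IsFrame ζ ξ)
    {k c : ℕ} {ν : Fin M →₀ ℕ} (h : (c, ν) ∈ Tset P d ζ ξ k) : 1 ≤ c := by
  obtain ⟨u, hu, hl⟩ := h
  by_contra hc
  obtain rfl : c = 0 := by omega
  have h1 := hl.2.1
  simp only at h1
  rw [Ph_coeff_zero hP hform hf hu, coeff_zero] at h1
  exact h1 rfl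

/-- The shifts of the leading exponents. -/
lemma Tset_shift (hP : ∀ c, (P c).totalDegree ≤ d) {k c : ℕ} {ν : Fin M →₀ ℕ}
    (h : (c + 1, ν) ∈ Tset P d ζ ξ (k + 1)) (i : Fin (M + 1)) : (c, ν + ep i) ∈ Tset P d ζ ξ k := by
  obtain ⟨u, hu, hl⟩ := h
  refine ⟨fun c => pderiv i (u c), U_deriv hP i hu, ?_⟩
  rw [← DD_Ph]
  exact lead_DD i hl

end Helper35.BallT
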